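import Mathlib

/-! Subshifts given by forbidden words, the local shifts `φ_a`, and the topological full group. -/

namespace Pool.Agent.P.MP_13a6c0_al

variable {A : Type*}

/-- `sh k = σ ^ k`, where `(σ x) n = x (n + 1)` -/
def sh (k : ℤ) (x : ℤ → A) : ℤ → A := fun n => x (n + k)

/-- the finite word `w` occurs as a subword of `x` -/
def Occurs (w : List A) (x : ℤ → A) : Prop :=
  ∃ i : ℤ, ∀ k : Fin w.length, x (i + (k : ℕ)) = w.get k

/-- the subshift of sequences in which no word of `F` occurs -/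
def SF (F : Set (List A)) : Set (ℤ → A) := {x | ∀ w ∈ F, ¬ Occurs w x}

lemma sh_mem_SF {F : Set (List A)} (k : ℤ) {x : ℤ → A} (hx : x ∈ SF F) : sh k x ∈ SF F := by
  rintro w hw ⟨i, hi⟩
  refine hx w hw ⟨i + k, fun j => ?_⟩
  rw [← hi j, sh, add_right_comm]

open Classical in
/-- `φ_a x = σ x` if `x 1 = a`, `σ⁻¹ x` if `x 0 = a`, and `x` otherwise -/
noncomputable def phiFun (a : A) (x : ℤ → A) : ℤ → A :=
  if x 1 = a then sh 1 x else if x 0 = a then sh (-1) x else x

lemma phiFun_mem {F : Set (List A)} (a : A) {x : ℤ → A} (hx : x ∈ SF F) : phiFun a x ∈ SF F := by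
  unfold phiFun
  split_ifs
  exacts [sh_mem_SF _ hx, sh_mem_SF _ hx, hx]

lemma ne_of_mem_SF {F : Set (List A)} (hF : ∀ a, [a, a] ∈ F) {x : ℤ → A} (hx : x ∈ SF F) (i : ℤ) :
    x (i + 1) ≠ x i := by
  intro e
  refine hx _ (hF (x i)) ⟨i, fun k => ?_⟩
  fin_cases k
  · simp
  · simpa using e

lemma phiFun_phiFun {F : Set (List A)} (hF : ∀ a, [a, a] ∈ F) (a : A) {x : ℤ → A}
    (hx : x ∈ SF F) : phiFun a (phiFun a x) = x := by
  have h1 : x 2 ≠ x 1 := ne_of_mem_SF hF hx 1
  by_cases c1 : x 1 = a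
  · have e : phiFun a x = sh 1 x := by simp [phiFun, c1]
    have c2 : sh 1 x 1 ≠ a := fun h => h1 (c1 ▸ h)
    have c3 : sh 1 x 0 = a := c1
    rw [e, phiFun, if_neg c2, if_pos c3]
    funext n
    simp [sh]
  by_cases c0 : x 0 = a
  · have e : phiFun a x = sh (-1) x := by simp [phiFun, c1, c0]
    have c2 : sh (-1) x 1 = a := c0
    rw [e, phiFun, if_pos c2]
    funext n
    simp [sh]
  · have e : phiFun a x = x := by simp [phiFun, c1, c0]
    rw [e, e]

variable [TopologicalSpace A]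

lemma continuous_phiFun [DiscreteTopology A] (a : A) : Continuous (phiFun a) := by
  classical
  refine continuous_pi fun n => ?_
  have h1 : Continuous fun x : ℤ → A => (x 1, x 0, x (n + 1), x (n + -1), x n) := by fun_prop
  have h2 : Continuous fun t : A × A × A × A × A =>
      if t.1 = a then t.2.2.1 else if t.2.1 = a then t.2.2.2.1 else t.2.2.2.2 :=
    continuous_of_discreteTopology
  refine (h2.comp h1).congr fun x => ?_
  simp only [Function.comp, phiFun]
  split_ifs <;> rfl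

/-- the involutive homeomorphism `φ_a` of `S_F` -/
noncomputable def phi [DiscreteTopology A] (F : Set (List A)) (hF : ∀ a, [a, a] ∈ F) (a : A) :
    SF F ≃ₜ SF F where
  toFun x := ⟨phiFun a x.1, phiFun_mem a x.2⟩
  invFun x := ⟨phiFun a x.1, phiFun_mem a x.2⟩
  left_inv x := Subtype.ext (phiFun_phiFun hF a x.2)
  right_inv x := Subtype.ext (phiFun_phiFun hF a x.2)
  continuous_toFun := ((continuous_phiFun a).comp continuous_subtype_val).subtype_mk _
  continuous_invFun := ((continuous_phiFun a).comp continuous_subtype_val).subtype_mk _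

/-- the group `G_F` generated by the `φ_a` -/
noncomputable def GF [DiscreteTopology A] (F : Set (List A)) (hF : ∀ a, [a, a] ∈ F) :
    Subgroup (SF F ≃ₜ SF F) :=
  Subgroup.closure (Set.range (phi F hF))

/-- membership in the topological full group `F(G_F)` -/
def InFull [DiscreteTopology A] (F : Set (List A)) (hF : ∀ a, [a, a] ∈ F) (h : SF F ≃ₜ SF F) :
    Prop :=
  ∀ x, ∃ U : Set (SF F), IsOpen U ∧ x ∈ U ∧ ∃ g ∈ GF F hF, Set.EqOn h g U

/-- closed shift invariant set -/
def IsSubshift (Y : Set (ℤ → A)) : Prop := IsClosed Y ∧ ∀ k : ℤ, ∀ x ∈ Y, sh k x ∈ Y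

/-- no proper nonempty closed shift invariant subset -/
def IsMinimalShift (Y : Set (ℤ → A)) : Prop :=
  ∀ Z : Set (ℤ → A), IsSubshift Z → Z ⊆ Y → Z.Nonempty → Z = Y

/-- number of words of length `n` occurring in points of `Y` -/
noncomputable def complexity (Y : Set (ℤ → A)) (n : ℕ) : ℕ :=
  {w : List A | w.length = n ∧ ∃ x ∈ Y, Occurs w x}.ncard

/-- `liminf log N_n / sqrt n = 0` -/
def Slow (Y : Set (ℤ → A)) : Prop :=
  ∀ ε : ℝ, 0 < ε → ∃ᶠ n : ℕ in Filter.atTop, Real.log (complexity Y n) ≤ ε * Real.sqrt n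

end Pool.Agent.P.MP_13a6c0_al
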