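import Pool.Agent.P.MP_13a6c0_al.Base
import Pool.Agent.P.MP_13a6c0_al.Defs

/-! Actions of the free group along shift orbits given by local rules; slow complexity. -/

namespace Pool.Agent.P.MP_13a6c0_al

open Finset Rv

variable {A : Type*}

lemma sh_sh (k l : ℤ) (x : ℤ → A) : sh k (sh l x) = sh (k + l) x := by
  funext n; simp [sh, add_assoc]

lemma sh_zero (x : ℤ → A) : sh 0 x = x := by
  funext n; simp [sh]

/-- agreement on a central window -/
def Agree (R : ℤ) (x y : ℤ → A) : Prop := ∀ n, |n| ≤ R → x n = y n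

lemma Agree.mono {R R' : ℤ} {x y : ℤ → A} (h : Agree R x y) (hR : R' ≤ R) : Agree R' x y :=
  fun n hn => h n (hn.trans hR)

lemma Agree.shift {R R' m : ℤ} {x y : ℤ → A} (h : Agree R x y) (hR : |m| + R' ≤ R) :
    Agree R' (sh m x) (sh m y) := fun n hn => h _ (by
  have := abs_add_le n m
  linarith)

/-- an action of the free group on the shift orbits in `S` by a local rule -/
structure Act (S : Set (ℤ → A)) where
  ρ : (ℤ → A) → (FG →* Equiv.Perm ℤ)
  D : ℕ
  R : ℕ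
  inv : ∀ k : ℤ, ∀ x ∈ S, sh k x ∈ S
  bd : ∀ x ∈ S, Bd D (ρ x)
  eqv : ∀ x ∈ S, ∀ (k : ℤ) (g : FG) (n : ℤ), ρ (sh k x) g n = ρ x g (n + k) - k
  loc : ∀ x ∈ S, ∀ y ∈ S, Agree R x y → ∀ s : Letter, ρ x (lt s) 0 = ρ y (lt s) 0

namespace Act

variable {S : Set (ℤ → A)} (α : Act S)

lemma eqv0 {x : ℤ → A} (hx : x ∈ S) (g : FG) (m : ℤ) : α.ρ x g m = α.ρ (sh m x) g 0 + m := by
  rw [α.eqv x hx]; simp

lemma loc_all {x y : ℤ → A} (hx : x ∈ S) (hy : y ∈ S) (g : FG)
    (h : Agree (α.D * g.norm + α.R) x y) : α.ρ x g 0 = α.ρ y g 0 := by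
  have key : ∀ L : List Letter, Agree (α.D * L.length + α.R) x y →
      α.ρ x (FreeGroup.mk L) 0 = α.ρ y (FreeGroup.mk L) 0 := by
    intro L
    induction L with
    | nil => intro _; simp [← FreeGroup.one_eq_mk]
    | cons s L ih =>
      intro h
      have h1 : Agree (α.D * L.length + α.R) x y := h.mono (by
        push_cast [List.length_cons]
        nlinarith [Int.natCast_nonneg α.D])
      rw [mk_cons, map_mul, map_mul, Equiv.Perm.mul_apply, Equiv.Perm.mul_apply, ← ih h1]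
      set m := α.ρ x (FreeGroup.mk L) 0
      have h2 : |m| ≤ α.D * L.length := by
        have := α.bd x hx (FreeGroup.mk L) 0
        rw [sub_zero] at this
        refine this.trans ?_
        exact_mod_cast Nat.mul_le_mul_left α.D FreeGroup.norm_mk_le
      rw [α.eqv0 hx, α.eqv0 hy,
        α.loc _ (α.inv m x hx) _ (α.inv m y hy) (h1.shift (by linarith)) s]
  have := key g.toWord h
  rwa [FreeGroup.mk_toWord] at this

/-- faithful on the orbits in `Z` -/
def Faithful (Z : Set (ℤ → A)) : Prop := ∀ g : FG, g ≠ 1 → ∃ x ∈ Z, α.ρ x g 0 ≠ 0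

/-- restriction along an endomorphism -/
noncomputable def comp (ψ : FG →* FG) : Act S where
  ρ x := (α.ρ x).comp ψ
  D := α.D * univ.sup fun s : Letter => (ψ (lt s)).norm
  R := α.D * (univ.sup fun s : Letter => (ψ (lt s)).norm) + α.R
  inv := α.inv
  bd x hx := bd_of_letters fun s z => (α.bd x hx _ z).trans (by
    exact_mod_cast Nat.mul_le_mul_left α.D
      (le_sup (f := fun s : Letter => (ψ (lt s)).norm) (mem_univ s)))
  eqv x hx k g n := α.eqv x hx k (ψ g) n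
  loc x hx y hy h s := α.loc_all hx hy _ (h.mono (by
    have := Nat.mul_le_mul_left α.D
      (le_sup (f := fun s : Letter => (ψ (lt s)).norm) (mem_univ s))
    exact_mod_cast Nat.add_le_add_right this α.R))

lemma comp_ρ (ψ : FG →* FG) (x : ℤ → A) (g : FG) : (α.comp ψ).ρ x g = α.ρ x (ψ g) := rfl

lemma Faithful.comp {Z : Set (ℤ → A)} (h : α.Faithful Z) {ψ : FG →* FG}
    (hψ : Function.Injective ψ) : (α.comp ψ).Faithful Z :=
  fun g hg => h (ψ g) fun e => hg (hψ (by rw [e, map_one]))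

theorem not_faithful_of_card [Finite A] {Y : Set (ℤ → A)} (hY : Y ⊆ S)
    (hinv : ∀ k : ℤ, ∀ x ∈ Y, sh k x ∈ Y) {δ : ℝ} {l n : ℕ} (ha : Almost α.D δ l)
    (hn : 2 * (α.D * l + α.R) + 1 ≤ n) (hδ : complexity Y n * δ < 1) : ¬ α.Faithful Y := by
  classical
  intro hf
  obtain ⟨μ, hμ, hb⟩ := ha
  set r : ℕ := α.D * l + α.R with hr
  set W := {w : List A | w.length = n ∧ ∃ x ∈ Y, Occurs w x} with hW
  have hWfin : W.Finite := (List.finite_length_eq A n).subset fun w hw => hw.1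
  set win : (ℤ → A) → List A := fun x => List.ofFn fun k : Fin n => x (-r + (k : ℕ)) with hwin
  have win_mem : ∀ x ∈ Y, win x ∈ W := by
    intro x hx
    refine ⟨by simp [hwin], x, hx, -r, fun k => ?_⟩
    simp [hwin]
  have win_agree : ∀ x y, win x = win y → Agree r x y := by
    intro x y e m hm
    have h1 := List.ofFn_injective e
    have h2 := abs_le.1 hm
    have h3 := congrFun h1 ⟨(m + r).toNat, by omega⟩
    have h4 : -(r : ℤ) + ((m + r).toNat : ℕ) = m := by omega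
    simpa only [h4] using h3
  have hrep : ∀ w : List A, ∃ x : ℤ → A, (∃ y ∈ Y, win y = w) → x ∈ Y ∧ win x = w := by
    intro w
    by_cases h : ∃ y ∈ Y, win y = w
    · obtain ⟨y, hy⟩ := h
      exact ⟨y, fun _ => hy⟩
    · obtain ⟨x, -⟩ := hf (lt (0, true)) (St_lt _).ne_one
      exact ⟨x, fun h' => absurd h' h⟩
  choose rep hrep using hrep
  set W' := hWfin.toFinset.filter fun w => ∃ y ∈ Y, win y = w with hW'
  have hδ0 : 0 ≤ δ := by
    obtain ⟨x, hx, -⟩ := hf (lt (0, true)) (St_lt _).ne_one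
    exact le_trans (μ.E_nonneg fun _ => ind_nonneg _) (hb _ (α.bd x (hY hx)) 0)
  have h1 : μ.E (fun g => ∑ w ∈ W', ind (α.ρ (rep w) g 0 ≠ 0)) < 1 := by
    rw [E_sum]
    have a1 : ∑ w ∈ W', μ.E (fun g => ind (α.ρ (rep w) g 0 ≠ 0)) ≤ ∑ _w ∈ W', δ :=
      sum_le_sum fun w hw => hb _ (α.bd _ (hY (hrep w (mem_filter.1 hw).2).1)) 0
    rw [sum_const, nsmul_eq_mul] at a1
    have a2 : W'.card ≤ complexity Y n := by
      rw [complexity, ← hW, Set.ncard_eq_toFinset_card W hWfin]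
      exact card_filter_le _ _
    have a3 : (W'.card : ℝ) * δ ≤ complexity Y n * δ := by gcongr
    linarith
  obtain ⟨i, hi⟩ := μ.exists_lt h1
  obtain ⟨x, hx, hmove⟩ := hf _ (hμ i).1
  have hw : win x ∈ W' := mem_filter.2 ⟨by simpa using win_mem x hx, x, hx, rfl⟩
  obtain ⟨b1, b2⟩ := hrep (win x) ⟨x, hx, rfl⟩
  have b3 : α.ρ (rep (win x)) (μ.g i) 0 = α.ρ x (μ.g i) 0 := by
    refine α.loc_all (hY b1) (hY hx) _ ((win_agree _ _ b2).mono ?_)
    have := Nat.add_le_add_right (Nat.mul_le_mul_left α.D (hμ i).2) α.R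
    exact_mod_cast this
  have b4 := single_le_sum (f := fun w => ind (α.ρ (rep w) (μ.g i) 0 ≠ 0))
    (fun _ _ => ind_nonneg _) hw
  rw [b3, ind_of hmove] at b4
  linarith

theorem not_faithful_of_slow [Finite A] {Y : Set (ℤ → A)} (hY : Y ⊆ S)
    (hinv : ∀ k : ℤ, ∀ x ∈ Y, sh k x ∈ Y) (hs : Slow Y) : ¬ α.Faithful Y := by
  obtain ⟨l0, hl0⟩ := almost_iter α.D
  set C : ℕ := 2 * α.D * l0 + 2 * α.R + 1 with hC
  have hC0 : 0 < C := by omega
  have hC0' : (0 : ℝ) < Real.sqrt C := Real.sqrt_pos.2 (by exact_mod_cast hC0)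
  have hlog : 0 < Real.log 2 := Real.log_pos one_lt_two
  obtain ⟨n, hn1, hn2⟩ := ((hs (Real.log 2 / (2 * Real.sqrt C)) (by positivity)).and_eventually
    (Filter.eventually_ge_atTop C)).exists
  set k := Nat.log 4 (n / C) with hk
  have hq : n / C ≠ 0 := (Nat.div_pos hn2 hC0).ne'
  have k1 : 4 ^ k * C ≤ n :=
    (Nat.mul_le_mul_right C (Nat.pow_log_le_self 4 hq)).trans (Nat.div_mul_le_self n C)
  have k2 : n < 4 ^ (k + 1) * C :=
    (Nat.div_lt_iff_lt_mul hC0).1 (Nat.lt_pow_succ_log_self (by norm_num) _)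
  obtain ⟨l, hl1, hl2⟩ := hl0 k
  refine α.not_faithful_of_card hY hinv hl2 (n := n) ?_ ?_
  · have a1 : 1 ≤ 4 ^ k := Nat.one_le_pow _ _ (by norm_num)
    have a2 : α.D * l ≤ α.D * (4 ^ k * l0) := Nat.mul_le_mul_left _ (by omega)
    have a3 : 2 * α.R + 1 ≤ 4 ^ k * (2 * α.R + 1) := Nat.le_mul_of_pos_left _ a1
    have a4 : 4 ^ k * C = 2 * (α.D * (4 ^ k * l0)) + 4 ^ k * (2 * α.R + 1) := by rw [hC]; ring
    omega
  · have a1 : Real.sqrt n ≤ 2 ^ (k + 1) * Real.sqrt C := by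
      rw [Real.sqrt_le_left (by positivity), mul_pow, Real.sq_sqrt (Nat.cast_nonneg C),
        ← pow_mul, mul_comm (k + 1), pow_mul]
      have : (n : ℝ) ≤ 4 ^ (k + 1) * C := by exact_mod_cast k2.le
      norm_num
      exact this
    have a2 : Real.log (complexity Y n) ≤ 2 ^ k * Real.log 2 := by
      refine hn1.trans ?_
      calc Real.log 2 / (2 * Real.sqrt C) * Real.sqrt n
          ≤ Real.log 2 / (2 * Real.sqrt C) * (2 ^ (k + 1) * Real.sqrt C) := by gcongr
        _ = 2 ^ k * Real.log 2 := by rw [pow_succ]; field_simp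
    have a3 : (complexity Y n : ℝ) ≤ 2 ^ (2 ^ k) := by
      rcases Nat.eq_zero_or_pos (complexity Y n) with h | h
      · rw [h]; simp
      · rw [← Real.log_le_log_iff (by exact_mod_cast h) (by positivity), Real.log_pow]
        exact_mod_cast a2
    have a4 : (2 : ℝ) ^ (2 ^ k) * (1 / 2) ^ (2 ^ k) = 1 := by rw [← mul_pow]; simp
    have a5 : (complexity Y n : ℝ) * (1 / 2) ^ (2 ^ k) ≤ 2 ^ (2 ^ k) * (1 / 2) ^ (2 ^ k) := by
      gcongr
    linarith

end Act

end Pool.Agent.P.MP_13a6c0_al
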