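import Pool.Agent.P.MP_13a6c0_al.Interval

/-! Universal almost laws for bounded displacement actions on the integers. -/

namespace Pool.Agent.P.MP_13a6c0_al

open Finset Rv

/-- a random nontrivial word of length at most `l` moving each point of each `D`-bounded action
with probability at most `δ` -/
def Almost (D : ℕ) (δ : ℝ) (l : ℕ) : Prop :=
  ∃ μ : Rv, μ.All (fun g => g ≠ 1 ∧ g.norm ≤ l) ∧
    ∀ ρ : FG →* Equiv.Perm ℤ, Bd D ρ → ∀ z, μ.E (fun g => ind (ρ g z ≠ z)) ≤ δ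

lemma perm_inv_fix {a : Equiv.Perm ℤ} {z : ℤ} : a⁻¹ z = z ↔ a z = z := by
  rw [Equiv.Perm.inv_eq_iff_eq, eq_comm]

lemma comm_fix_left {a b : Equiv.Perm ℤ} {z : ℤ} (h1 : a z = z) (h2 : a (b⁻¹ z) = b⁻¹ z) :
    (a * b * a⁻¹ * b⁻¹) z = z := by
  simp only [Equiv.Perm.mul_apply]
  rw [perm_inv_fix.2 h2]
  simpa using h1

lemma comm_fix_right {a b : Equiv.Perm ℤ} {z : ℤ} (h1 : b z = z) (h2 : b (a⁻¹ z) = a⁻¹ z) :
    (a * b * a⁻¹ * b⁻¹) z = z := by
  simp only [Equiv.Perm.mul_apply]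
  rw [perm_inv_fix.2 h1, h2]
  simp

lemma conj_fix {t v : Equiv.Perm ℤ} {y : ℤ} : (t * v * t⁻¹) y = y ↔ v (t⁻¹ y) = t⁻¹ y := by
  simp only [Equiv.Perm.mul_apply]
  rw [← Equiv.Perm.eq_inv_iff_eq]

lemma iter_comm (l : List FG) (hl : ∀ g ∈ l, g ≠ 1) : ∃ (W : FG) (H : Finset FG), W ≠ 1 ∧
    H.card + 2 ≤ 2 ^ (l.length + 1) ∧ ∀ (ρ : FG →* Equiv.Perm ℤ) (z : ℤ), ∀ g ∈ l,
      (∀ h ∈ H, ρ g (ρ h z) = ρ h z) → ρ W z = z := by
  classical
  induction l with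
  | nil => exact ⟨lt (0, true), ∅, (St_lt _).ne_one, by simp, by simp⟩
  | cons g l ih =>
    obtain ⟨W, H, hW, hH, hfix⟩ := ih fun g' hg' => hl g' (List.mem_cons_of_mem _ hg')
    obtain ⟨t, ht⟩ := exists_tau hW (hl g List.mem_cons_self)
    set τ := tau t
    refine ⟨_, H ∪ H.image (· * (τ * g * τ⁻¹)⁻¹) ∪ {τ⁻¹, τ⁻¹ * W⁻¹}, ht, ?_, ?_⟩
    · have a1 := card_union_le (H ∪ H.image (· * (τ * g * τ⁻¹)⁻¹)) {τ⁻¹, τ⁻¹ * W⁻¹}
      have a2 := card_union_le H (H.image (· * (τ * g * τ⁻¹)⁻¹))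
      have a3 := card_image_le (s := H) (f := (· * (τ * g * τ⁻¹)⁻¹))
      have a4 := card_le_two (a := τ⁻¹) (b := τ⁻¹ * W⁻¹)
      rw [List.length_cons, pow_succ 2 (l.length + 1)]
      omega
    · intro ρ z g' hg' hf
      simp only [map_mul, map_inv]
      rcases List.mem_cons.1 hg' with rfl | hg'
      · apply comm_fix_right
        · rw [conj_fix]
          have := hf τ⁻¹ (by simp)
          simpa using this
        · rw [conj_fix]
          have := hf (τ⁻¹ * W⁻¹) (by simp)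
          simpa using this
      · apply comm_fix_left
        · exact hfix ρ z g' hg' fun h hh => hf h (by simp [hh])
        · refine hfix ρ _ g' hg' fun h hh => ?_
          have := hf (h * (τ * g * τ⁻¹)⁻¹)
            (mem_union_left _ (mem_union_right _ (mem_image_of_mem _ hh)))
          simpa only [map_mul, map_inv, Equiv.Perm.mul_apply] using this

lemma pow_fix {e : Equiv.Perm ℤ} {J : Finset ℤ} (h : ∀ z, e z ∈ J ↔ z ∈ J) {z : ℤ} (hz : z ∈ J) :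
    (e ^ J.card.factorial) z = z := by
  classical
  have h1 : (e.subtypePerm (p := fun z => z ∈ J) h) ^ J.card.factorial = 1 := by
    have := pow_card_eq_one (x := e.subtypePerm (p := fun z => z ∈ J) h)
    rwa [Fintype.card_perm, Fintype.card_coe] at this
  rw [Equiv.Perm.subtypePerm_pow] at h1
  have h2 := congrArg (fun f : Equiv.Perm {z // z ∈ J} => (f ⟨z, hz⟩ : ℤ)) h1
  simpa using h2

lemma pow_mul_fix {e : Equiv.Perm ℤ} {z : ℤ} {a : ℕ} (h : (e ^ a) z = z) (b : ℕ) :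
    (e ^ (a * b)) z = z := by
  rw [pow_mul]
  exact Equiv.Perm.pow_apply_eq_self_of_apply_eq_self h b

theorem base (D : ℕ) {δ : ℝ} (hδ : 0 < δ) : ∃ l, Almost D δ l := by
  classical
  obtain ⟨U, hU1, hU⟩ := interval D
  have step : ∀ E : ℕ, ∃ (W : FG) (H : Finset FG) (N : ℕ), 0 < E → (W ≠ 1 ∧
      H.card ≤ 2 ^ (U.card + 1) ∧ 0 < N ∧ ∀ ρ : FG →* Equiv.Perm ℤ, Bd D ρ → ∀ z, ρ W z ≠ z →
        ∃ h ∈ H, ∃ u ∈ U, (ρ u ^ (E * N)) (ρ h z) = ρ h z ∧ (ρ u ^ E) (ρ h z) ≠ ρ h z) := by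
    intro E
    by_cases hE : 0 < E
    swap
    · exact ⟨1, ∅, 0, fun h => absurd h hE⟩
    obtain ⟨W, H, hW, hH, hfix⟩ := iter_comm (U.toList.map (· ^ E)) (by
      intro g hg
      obtain ⟨u, hu, rfl⟩ := List.mem_map.1 hg
      rw [Ne, pow_eq_one_iff_left hE.ne']
      exact hU1 u (mem_toList.1 hu))
    set R : ℕ := D * H.sup FreeGroup.norm with hR
    refine ⟨W, H, (2 * R + 1).factorial, fun _ => ⟨hW, ?_, Nat.factorial_pos _, ?_⟩⟩
    · rw [List.length_map, length_toList] at hH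
      omega
    intro ρ hρ z hz
    obtain ⟨u, hu, hJ⟩ := hU ρ hρ (z - R) (z + R) (by omega)
    by_contra hcon
    push Not at hcon
    apply hz
    refine hfix ρ z (u ^ E) (List.mem_map.2 ⟨u, mem_toList.2 hu, rfl⟩) fun h hh => ?_
    rw [map_pow]
    apply hcon h hh u hu
    rw [mul_comm]
    apply pow_mul_fix
    have hc : (Icc (z - R) (z + R)).card = 2 * R + 1 := by
      rw [Int.card_Icc]; omega
    rw [← hc]
    apply pow_fix hJ
    have h1 := abs_le.1 (hρ h z)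
    have h2 : (D : ℤ) * h.norm ≤ R := by
      rw [hR]
      exact_mod_cast Nat.mul_le_mul_left D (le_sup (f := FreeGroup.norm) hh)
    rw [mem_Icc]
    omega
  choose W H N hstep using step
  set Es : ℕ → ℕ := fun j => Nat.rec 1 (fun _ E => E * N E) j with hEs
  have Es_succ : ∀ j, Es (j + 1) = Es j * N (Es j) := fun j => rfl
  have Es_pos : ∀ j, 0 < Es j := by
    intro j
    induction j with
    | zero => exact Nat.one_pos
    | succ j ih => rw [Es_succ]; exact Nat.mul_pos ih (hstep _ ih).2.2.1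
  set c : ℝ := 2 ^ (U.card + 1) with hc
  have hc0 : 0 < c := by positivity
  obtain ⟨J, hJ⟩ := exists_nat_gt (2 * c * U.card / δ)
  have hJ0 : (0 : ℝ) < J := lt_of_le_of_lt (by positivity) hJ
  have : Nonempty (Fin J) := ⟨⟨0, by exact_mod_cast hJ0⟩⟩
  obtain ⟨μ, hμ⟩ := reiter (κ := Σ j : Fin J, H (Es j)) (fun k => k.2.1) D
    (η := δ / (2 * c)) (by positivity)
  set ν : Rv := unif fun j : Fin J => (dirac (W (Es j))).map2 μ fun w g => g⁻¹ * w * g with hν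
  obtain ⟨l, hl⟩ := ν.exists_bound
  have hne : ν.All fun g => g ≠ 1 := by
    refine All_unif fun j => All_map2 (P := fun g => g ≠ 1) (Q := fun _ => True)
      (fun _ => (hstep _ (Es_pos j)).1) (fun _ => trivial) ?_
    intro u v hu _ e
    apply hu
    have : u = v * (v⁻¹ * u * v) * v⁻¹ := by group
    rw [this, e]; simp
  refine ⟨l, ν, fun i => ⟨hne i, hl i⟩, fun ρ hρ z => ?_⟩
  set Un : ℕ → ℤ → Prop := fun j y => ∃ u ∈ U, (ρ u ^ Es (j + 1)) y = y ∧ (ρ u ^ Es j) y ≠ y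
    with hUn
  have tele : ∀ y, ∑ j : Fin J, ind (Un j y) ≤ U.card := by
    intro y
    have a1 : ∀ j : ℕ, ind (Un j y) ≤
        ∑ u ∈ U, (ind ((ρ u ^ Es (j + 1)) y = y) - ind ((ρ u ^ Es j) y = y)) := by
      intro j
      have b1 : ∀ u ∈ U, 0 ≤ ind ((ρ u ^ Es (j + 1)) y = y) - ind ((ρ u ^ Es j) y = y) :=
        fun u _ => sub_nonneg.2 (ind_mono fun h => by rw [Es_succ]; exact pow_mul_fix h _)
      refine ind_le (sum_nonneg b1) ?_
      rintro ⟨u, hu, h1, h2⟩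
      refine le_trans ?_ (single_le_sum b1 hu)
      rw [ind_of h1, ind_of_not h2]
      norm_num
    refine (sum_le_sum fun (j : Fin J) _ => a1 j).trans ?_
    rw [sum_comm]
    refine (sum_le_sum (g := fun _ => (1 : ℝ)) fun u _ => ?_).trans (by simp)
    rw [Fin.sum_univ_eq_sum_range
      (fun j => ind ((ρ u ^ Es (j + 1)) y = y) - ind ((ρ u ^ Es j) y = y)),
      sum_range_sub (fun j => ind ((ρ u ^ Es j) y = y))]
    linarith [ind_le_one ((ρ u ^ Es J) y = y), ind_nonneg ((ρ u ^ Es 0) y = y)]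
  have lev : ∀ j : Fin J, μ.E (fun g => ind (ρ (g⁻¹ * W (Es j) * g) z ≠ z)) ≤
      c * μ.E (fun g => ind (Un j (ρ g z))) + δ / 2 := by
    intro j
    obtain ⟨-, h2, -, h4⟩ := hstep _ (Es_pos j)
    have a1 : μ.E (fun g => ind (ρ (g⁻¹ * W (Es j) * g) z ≠ z)) ≤
        μ.E (fun g => ∑ h ∈ H (Es j), ind (Un j (ρ (h * g) z))) := by
      refine μ.E_mono fun g => ind_le (sum_nonneg fun _ _ => ind_nonneg _) fun hm => ?_
      have b1 : ρ (W (Es j)) (ρ g z) ≠ ρ g z := by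
        intro e
        apply hm
        simp [e]
      obtain ⟨h, hh, u, hu, b2⟩ := h4 ρ hρ _ b1
      refine le_trans ?_ (single_le_sum (f := fun h => ind (Un j (ρ (h * g) z)))
        (fun _ _ => ind_nonneg _) hh)
      refine (ind_of ?_).ge
      refine ⟨u, hu, ?_⟩
      rw [Es_succ, map_mul, Equiv.Perm.mul_apply]
      exact b2
    rw [E_sum] at a1
    have a2 : ∑ h ∈ H (Es j), μ.E (fun g => ind (Un j (ρ (h * g) z))) ≤
        ∑ _h ∈ H (Es j), (μ.E (fun g => ind (Un j (ρ g z))) + δ / (2 * c)) :=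
      sum_le_sum fun h hh => hμ ρ hρ z ⟨j, h, hh⟩ (Un j)
    rw [sum_const, nsmul_eq_mul] at a2
    have a3 : ((H (Es j)).card : ℝ) ≤ c := by rw [hc]; exact_mod_cast h2
    have a4 : 0 ≤ μ.E (fun g => ind (Un j (ρ g z))) := μ.E_nonneg fun _ => ind_nonneg _
    have a5 : ((H (Es j)).card : ℝ) * (μ.E (fun g => ind (Un j (ρ g z))) + δ / (2 * c)) ≤
        c * (μ.E (fun g => ind (Un j (ρ g z))) + δ / (2 * c)) := by gcongr
    have a6 : c * (δ / (2 * c)) = δ / 2 := by field_simp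
    linarith
  rw [hν, E_unif]
  simp only [E_map2, E_dirac, Fintype.card_fin]
  have a1 := sum_le_sum fun j (_ : j ∈ (univ : Finset (Fin J))) => lev j
  rw [sum_add_distrib, ← mul_sum, sum_const, card_univ, Fintype.card_fin,
    nsmul_eq_mul] at a1
  have a2 : μ.E (fun g => ∑ j : Fin J, ind (Un j (ρ g z))) ≤ U.card := μ.E_le fun g => tele _
  rw [E_sum] at a2
  have a3 := mul_le_mul_of_nonneg_left a2 hc0.le
  rw [inv_mul_le_iff₀ hJ0]
  rw [div_lt_iff₀ hδ] at hJ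
  nlinarith

theorem square {D : ℕ} {δ : ℝ} {l : ℕ} (h : Almost D δ l) : Almost D (48 * δ ^ 2) (4 * l + 16) := by
  classical
  obtain ⟨μ, hμ, hb⟩ := h
  have hch : ∀ u v : FG, ∃ t : Letter × Letter, u ≠ 1 → v ≠ 1 →
      u * (tau t * v * (tau t)⁻¹) * u⁻¹ * (tau t * v * (tau t)⁻¹)⁻¹ ≠ 1 := by
    intro u v
    by_cases hu : u = 1
    · exact ⟨((0, true), (0, true)), fun h => absurd hu h⟩
    by_cases hv : v = 1
    · exact ⟨((0, true), (0, true)), fun _ h => absurd hv h⟩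
    obtain ⟨t, ht⟩ := exists_tau hu hv
    exact ⟨t, fun _ _ => ht⟩
  choose t ht using hch
  refine ⟨μ.map2 μ fun u v => u * (tau (t u v) * v * (tau (t u v))⁻¹) * u⁻¹ *
    (tau (t u v) * v * (tau (t u v))⁻¹)⁻¹, All_map2 hμ hμ ?_, fun ρ hρ z => ?_⟩
  · rintro u v ⟨hu, hu'⟩ ⟨hv, hv'⟩
    refine ⟨ht u v hu hv, ?_⟩
    set τ := tau (t u v)
    have a0 : τ.norm ≤ 4 := norm_tau _
    have a1 := FreeGroup.norm_mul_le (τ * v) τ⁻¹
    have a2 := FreeGroup.norm_mul_le τ v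
    have a3 := FreeGroup.norm_mul_le (u * (τ * v * τ⁻¹) * u⁻¹) (τ * v * τ⁻¹)⁻¹
    have a4 := FreeGroup.norm_mul_le (u * (τ * v * τ⁻¹)) u⁻¹
    have a5 := FreeGroup.norm_mul_le u (τ * v * τ⁻¹)
    rw [FreeGroup.norm_inv_eq] at a1 a3 a4
    omega
  have hδ : 0 ≤ δ := le_trans (μ.E_nonneg fun _ => ind_nonneg _) (hb ρ hρ z)
  have prod1 : ∀ y : FG → ℤ,
      μ.E (fun u => μ.E fun v => ind (ρ u z ≠ z) * ind (ρ v (y u) ≠ y u)) ≤ δ ^ 2 := by
    intro y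
    have := μ.E_mono (φ := fun u => μ.E fun v => ind (ρ u z ≠ z) * ind (ρ v (y u) ≠ y u))
      (ψ := fun u => ind (ρ u z ≠ z) * δ) fun u => by
        rw [E_mul_left]
        exact mul_le_mul_of_nonneg_left (hb ρ hρ _) (ind_nonneg _)
    rw [E_mul_right] at this
    have h2 := mul_le_mul_of_nonneg_right (hb ρ hρ z) hδ
    nlinarith
  have prod2 : ∀ (y : FG → ℤ) (x : ℤ),
      μ.E (fun u => μ.E fun v => ind (ρ v x ≠ x) * ind (ρ u (y v) ≠ y v)) ≤ δ ^ 2 := by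
    intro y x
    rw [E_swap]
    have := μ.E_mono (φ := fun v => μ.E fun u => ind (ρ v x ≠ x) * ind (ρ u (y v) ≠ y v))
      (ψ := fun v => ind (ρ v x ≠ x) * δ) fun u => by
        rw [E_mul_left]
        exact mul_le_mul_of_nonneg_left (hb ρ hρ _) (ind_nonneg _)
    rw [E_mul_right] at this
    have h2 := mul_le_mul_of_nonneg_right (hb ρ hρ x) hδ
    nlinarith
  set G : Letter × Letter → FG → FG → ℝ := fun s u v =>
    ind (ρ u z ≠ z) * ind (ρ v ((ρ (tau s))⁻¹ z) ≠ (ρ (tau s))⁻¹ z) +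
    ind (ρ u z ≠ z) * ind (ρ v ((ρ (tau s))⁻¹ ((ρ u)⁻¹ z)) ≠ (ρ (tau s))⁻¹ ((ρ u)⁻¹ z)) +
    ind (ρ v ((ρ (tau s))⁻¹ z) ≠ (ρ (tau s))⁻¹ z) *
      ind (ρ u ((ρ (tau s) * ρ v * (ρ (tau s))⁻¹)⁻¹ z) ≠ (ρ (tau s) * ρ v * (ρ (tau s))⁻¹)⁻¹ z)
    with hG
  have G0 : ∀ s u v, 0 ≤ G s u v := fun s u v =>
    add_nonneg (add_nonneg (mul_nonneg (ind_nonneg _) (ind_nonneg _))
      (mul_nonneg (ind_nonneg _) (ind_nonneg _))) (mul_nonneg (ind_nonneg _) (ind_nonneg _))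
  have GE : ∀ s, μ.E (fun u => μ.E fun v => G s u v) ≤ 3 * δ ^ 2 := by
    intro s
    simp only [hG, E_add]
    have a1 := prod1 fun _ => (ρ (tau s))⁻¹ z
    have a2 := prod1 fun u => (ρ (tau s))⁻¹ ((ρ u)⁻¹ z)
    have a3 := prod2 (fun v => (ρ (tau s) * ρ v * (ρ (tau s))⁻¹)⁻¹ z) ((ρ (tau s))⁻¹ z)
    linarith
  rw [E_map2]
  refine le_trans (μ.E_mono (ψ := fun u => μ.E fun v => ∑ s, G s u v) fun u => μ.E_mono fun v =>
    ind_le (sum_nonneg fun s _ => G0 s u v) fun hm => ?_) ?_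
  · refine le_trans ?_ (single_le_sum (f := fun s => G s u v) (fun s _ => G0 s u v)
      (mem_univ (t u v)))
    simp only [map_mul, map_inv] at hm
    simp only [hG]
    set a := ρ u
    set τ := ρ (tau (t u v))
    set b := ρ v
    have n1 := ind_nonneg (a z ≠ z)
    have n2 := ind_nonneg (b (τ⁻¹ z) ≠ τ⁻¹ z)
    have n3 := ind_nonneg (b (τ⁻¹ (a⁻¹ z)) ≠ τ⁻¹ (a⁻¹ z))
    have n4 := ind_nonneg (a ((τ * b * τ⁻¹)⁻¹ z) ≠ (τ * b * τ⁻¹)⁻¹ z)
    by_cases h1 : a z = z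
    · have h2 : a ((τ * b * τ⁻¹)⁻¹ z) ≠ (τ * b * τ⁻¹)⁻¹ z := fun e => hm (comm_fix_left h1 e)
      have h3 : b (τ⁻¹ z) ≠ τ⁻¹ z := by
        intro e
        apply h2
        rw [perm_inv_fix.2 (conj_fix.2 e), h1]
      rw [ind_of h2, ind_of h3]
      nlinarith
    by_cases h2 : b (τ⁻¹ z) = τ⁻¹ z
    · have h3 : b (τ⁻¹ (a⁻¹ z)) ≠ τ⁻¹ (a⁻¹ z) := fun e =>
        hm (comm_fix_right (conj_fix.2 h2) (conj_fix.2 e))
      rw [ind_of h1, ind_of h3]
      nlinarith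
    · rw [ind_of h1, ind_of h2]
      nlinarith
  · simp only [E_sum]
    refine (sum_le_sum fun s _ => GE s).trans ?_
    simp
    linarith

theorem almost_iter (D : ℕ) : ∃ l0 : ℕ, ∀ k : ℕ, ∃ l, l + 6 ≤ 4 ^ k * l0 ∧
    Almost D ((1 / 2) ^ (2 ^ k) / 48) l := by
  obtain ⟨l0, h0⟩ := base D (δ := 1 / 96) (by norm_num)
  refine ⟨l0 + 6, fun k => ?_⟩
  induction k with
  | zero => exact ⟨l0, by simp, by norm_num; exact h0⟩
  | succ k ih =>
    obtain ⟨l, h1, h2⟩ := ih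
    refine ⟨4 * l + 16, ?_, ?_⟩
    · rw [pow_succ]; nlinarith
    · have := square h2
      have e : 48 * ((1 / 2 : ℝ) ^ (2 ^ k) / 48) ^ 2 = (1 / 2) ^ (2 ^ (k + 1)) / 48 := by
        rw [pow_succ 2 k, pow_mul]; ring
      rwa [e] at this

end Pool.Agent.P.MP_13a6c0_al
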