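import Pool.Agent.P.MP_13a6c0_al.Act

/-! Minimal subshifts and the reduction to subshifts avoiding a given one. -/

namespace Pool.Agent.P.MP_13a6c0_al

open Finset Rv

/-- the half line is invariant -/
def Cut (e : Equiv.Perm ℤ) (n : ℤ) : Prop := ∀ z, e z ≤ n ↔ z ≤ n

lemma Cut.mul {e e' : Equiv.Perm ℤ} {n : ℤ} (h : Cut e n) (h' : Cut e' n) : Cut (e * e') n :=
  fun z => (h _).trans (h' z)

lemma Cut.pow {e : Equiv.Perm ℤ} {n : ℤ} (h : Cut e n) (k : ℕ) : Cut (e ^ k) n := by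
  induction k with
  | zero => intro z; simp
  | succ k ih => rw [pow_succ]; exact ih.mul h

lemma barrier {e : Equiv.Perm ℤ} {d M : ℕ} (hd : ∀ z, |e z - z| ≤ d)
    (h : ∀ p, e p ≠ p → ∃ n, |n - p| ≤ M ∧ Cut e n) (z : ℤ) :
    (e ^ (2 * (2 * M + d + 1) + 1).factorial) z = z := by
  classical
  by_cases hz : e z = z
  · exact Equiv.Perm.pow_apply_eq_self_of_apply_eq_self hz _
  have hmv : ∀ k : ℕ, e ((e ^ k) z) ≠ (e ^ k) z := by
    intro k hk
    apply hz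
    apply (e ^ k).injective
    rw [← hk, ← Equiv.Perm.mul_apply, ← Equiv.Perm.mul_apply, ← pow_succ, ← pow_succ']
  have step : ∀ k : ℕ, |(e ^ (k + 1)) z - (e ^ k) z| ≤ d := by
    intro k
    rw [pow_succ', Equiv.Perm.mul_apply]
    exact hd _
  have hin : ∀ k : ℕ, (e ^ k) z ∈ Icc (z - (2 * M + d + 1 : ℕ)) (z + (2 * M + d + 1 : ℕ)) := by
    intro k
    rw [mem_Icc]
    constructor
    · by_contra hk
      have ex : ∃ j : ℕ, (e ^ j) z < z - M := ⟨k, by omega⟩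
      have h1 := Nat.find_spec ex
      obtain ⟨j, hj⟩ : ∃ j, Nat.find ex = j + 1 := Nat.exists_eq_succ_of_ne_zero (by
        intro h0
        rw [h0] at h1
        simp at h1
        omega)
      have h2 := Nat.find_min ex (m := j) (by omega)
      rw [hj] at h1
      have h3 := abs_le.1 (step j)
      obtain ⟨n, hn, hc⟩ := h _ (hmv (j + 1))
      have h4 := abs_le.1 hn
      have h5 := hc.pow k z
      omega
    · by_contra hk
      have ex : ∃ j : ℕ, z + M < (e ^ j) z := ⟨k, by omega⟩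
      have h1 := Nat.find_spec ex
      obtain ⟨j, hj⟩ : ∃ j, Nat.find ex = j + 1 := Nat.exists_eq_succ_of_ne_zero (by
        intro h0
        rw [h0] at h1
        simp at h1
        omega)
      have h2 := Nat.find_min ex (m := j) (by omega)
      rw [hj] at h1
      have h3 := abs_le.1 (step j)
      obtain ⟨n, hn, hc⟩ := h _ (hmv (j + 1))
      have h4 := abs_le.1 hn
      have h5 := hc.pow k z
      omega
  set K := 2 * (2 * M + d + 1) + 1 with hK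
  have hc : (Icc (z - (2 * M + d + 1 : ℕ)) (z + (2 * M + d + 1 : ℕ))).card < (range (K + 1)).card := by
    rw [Int.card_Icc, card_range]; omega
  have key : ∀ i j : ℕ, i < j → j ≤ K → (e ^ i) z = (e ^ j) z → (e ^ K.factorial) z = z := by
    intro i j hij hj he
    obtain ⟨c, hc⟩ := Nat.dvd_factorial (m := j - i) (n := K) (by omega) (by omega)
    rw [hc]
    apply pow_mul_fix
    apply (e ^ i).injective
    rw [← Equiv.Perm.mul_apply, ← pow_add, he]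
    congr 2
    omega
  obtain ⟨i, hi, j, hj, hne, he⟩ := exists_ne_map_eq_of_card_lt_of_maps_to hc
    (f := fun k => (e ^ k) z) fun k _ => hin k
  rw [mem_range] at hi hj
  rcases lt_or_gt_of_ne hne with h1 | h1
  · exact key i j h1 (by omega) he
  · exact key j i h1 (by omega) he.symm

lemma exists_free {g : FG} (hg : g ≠ 1) : ∃ ψ : FG →* FG, Function.Injective ψ ∧
    ∀ θ : FG →* Equiv.Perm ℤ, θ g = 1 → ∀ s : Letter, θ (ψ (lt s)) = 1 := by
  have h1 : ∀ i : Fin 2, ∃ u : FG, St (i, true) u ∧ En (i, true) u ∧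
      ∀ θ : FG →* Equiv.Perm ℤ, θ g = 1 → θ u = 1 := by
    intro i
    obtain ⟨y1, a1, a2⟩ := exists_conj (i, true) hg
    obtain ⟨y2, b1, b2⟩ := exists_conj (i, false) hg
    have n1 : ((i, false) : Letter) ≠ iv (iv (i, true)) := by simp [iv]
    refine ⟨_, a1.mul a2 b1 n1, b2.mul a2 b1 n1, fun θ hθ => ?_⟩
    simp [hθ]
  choose u h1 h2 h3 using h1
  set ψ : FG →* FG := FreeGroup.lift u with hψ
  have e1 : ∀ i, ψ (lt (i, true)) = u i := fun i => FreeGroup.lift_apply_of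
  have e2 : ∀ i, ψ (lt (i, false)) = (u i)⁻¹ := by
    intro i
    rw [← e1, ← map_inv, lt_inv]
    rfl
  have f1 : ∀ s : Letter, St s (ψ (lt s)) ∧ En s (ψ (lt s)) := by
    rintro ⟨i, b⟩
    cases b
    · rw [e2]
      exact ⟨(h2 i).inv, (h1 i).inv⟩
    · rw [e1]
      exact ⟨h1 i, h2 i⟩
  have key : ∀ (L : List Letter) (s : Letter), FreeGroup.IsReduced (s :: L) →
      St s (ψ (FreeGroup.mk (s :: L))) := by
    intro L
    induction L with
    | nil => intro s _; exact (f1 s).1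
    | cons t L ih =>
      intro s hs
      rw [FreeGroup.isReduced_cons_cons] at hs
      rw [mk_cons, map_mul]
      refine (f1 s).1.mul (f1 s).2 (ih t hs.2) ?_
      rintro rfl
      have := hs.1 rfl
      simp [iv] at this
  refine ⟨ψ, (injective_iff_map_eq_one ψ).2 fun h hh => ?_, ?_⟩
  · by_contra hne
    have h4 : h.toWord ≠ [] := fun e => hne (FreeGroup.toWord_eq_nil_iff.1 e)
    obtain ⟨s, L, e⟩ := List.exists_cons_of_ne_nil h4
    have h5 := key L s (e ▸ FreeGroup.isReduced_toWord)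
    rw [← e, FreeGroup.mk_toWord] at h5
    exact h5.ne_one hh
  · rintro θ hθ ⟨i, b⟩
    cases b
    · rw [e2, map_inv, h3 i θ hθ, inv_one]
    · rw [e1, h3 i θ hθ]

variable {A : Type*}

namespace Act

variable {S : Set (ℤ → A)} (α : Act S)

lemma not_faithful_of_cut {Z : Set (ℤ → A)} (hZ : Z ⊆ S) (hinv : ∀ k : ℤ, ∀ x ∈ Z, sh k x ∈ Z)
    {w : FG} (hw : w ≠ 1) {M : ℕ}
    (h : ∀ x ∈ Z, α.ρ x w 0 ≠ 0 → ∃ n : ℤ, |n| ≤ M ∧ Cut (α.ρ x w) n) : ¬ α.Faithful Z := by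
  intro hf
  obtain ⟨x, hx, hm⟩ := hf (w ^ (2 * (2 * M + α.D * w.norm + 1) + 1).factorial) (by
    rw [Ne, pow_eq_one_iff_left (Nat.factorial_ne_zero _)]
    exact hw)
  apply hm
  rw [map_pow]
  refine barrier (fun z => by exact_mod_cast α.bd x (hZ hx) w z) (fun p hp => ?_) 0
  obtain ⟨n, hn, hc⟩ := h _ (hinv p x hx) (by
    intro e
    apply hp
    rw [α.eqv0 (hZ hx), e, zero_add])
  refine ⟨n + p, by simpa using hn, fun z => ?_⟩
  have := hc (z - p)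
  rw [α.eqv x (hZ hx), sub_add_cancel] at this
  omega

lemma loc_at {x y : ℤ → A} (hx : x ∈ S) (hy : y ∈ S) (g : FG) (m : ℤ) {r : ℤ}
    (h : Agree r x y) (hr : |m| + (α.D * g.norm + α.R) ≤ r) : α.ρ x g m = α.ρ y g m := by
  rw [α.eqv0 hx, α.eqv0 hy, α.loc_all (α.inv m x hx) (α.inv m y hy) g (h.shift hr)]

lemma kill {Y : Set (ℤ → A)} (hY : Y ⊆ S) (hinv : ∀ k : ℤ, ∀ x ∈ Y, sh k x ∈ Y)
    (h : ¬ α.Faithful Y) : ∃ ψ : FG →* FG, Function.Injective ψ ∧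
      ∀ x ∈ Y, ∀ s : Letter, (α.comp ψ).ρ x (lt s) = 1 := by
  unfold Faithful at h
  push Not at h
  obtain ⟨g, hg, h⟩ := h
  obtain ⟨ψ, h1, h2⟩ := exists_free hg
  refine ⟨ψ, h1, fun x hx s => h2 (α.ρ x) ?_ s⟩
  ext z
  rw [α.eqv0 (hY hx), h _ (hinv z x hx)]
  simp

end Act

variable [TopologicalSpace A] [DiscreteTopology A]

lemma agree_nhds (r : ℤ) (x : ℤ → A) : {y | Agree r x y} ∈ nhds x := by
  have h := set_pi_mem_nhds (i := Set.Icc (-r) r) (s := fun n => {x n}) (x := x)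
    (Set.finite_Icc _ _) fun n _ => (isOpen_discrete _).mem_nhds rfl
  refine Filter.mem_of_superset h fun y hy n hn => ?_
  exact (hy n (abs_le.1 hn)).symm

lemma closed_of_local {Z : Set (ℤ → A)} (hZ : IsClosed Z) {P : (ℤ → A) → Prop} (r : ℤ)
    (h : ∀ x ∈ Z, ∀ y ∈ Z, Agree r x y → P y → P x) : IsClosed {x | x ∈ Z ∧ P x} := by
  refine isClosed_of_closure_subset fun x hx => ?_
  have h1 : x ∈ Z := hZ.closure_subset (closure_mono (fun y hy => hy.1) hx)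
  obtain ⟨y, hy1, hy2⟩ := mem_closure_iff_nhds.1 hx _ (agree_nhds r x)
  exact ⟨h1, h x h1 y hy2.1 hy1 hy2.2⟩

omit [DiscreteTopology A] in
lemma exists_empty [Finite A] {Z : ℕ → Set (ℤ → A)} (hc : ∀ i, IsClosed (Z i))
    (ha : ∀ i, Z (i + 1) ⊆ Z i) (he : ∀ x, ∃ i, x ∉ Z i) : ∃ i, ∀ x, x ∉ Z i := by
  by_contra hcon
  push Not at hcon
  obtain ⟨x, hx⟩ := IsCompact.nonempty_iInter_of_sequence_nonempty_isCompact_isClosed Z ha hcon
    (hc 0).isCompact hc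
  obtain ⟨i, hi⟩ := he x
  exact hi (Set.mem_iInter.1 hx i)

namespace Act

variable {S : Set (ℤ → A)} (α : Act S)

theorem not_faithful_of_minimal [Finite A] {Y : Set (ℤ → A)} (hY : Y ⊆ S) (hs : IsSubshift Y)
    (hm : IsMinimalShift Y) : ¬ α.Faithful Y := by
  intro hf
  obtain ⟨x, hx, -⟩ := hf (lt (0, true)) (St_lt _).ne_one
  obtain ⟨U, hU1, hU⟩ := interval α.D
  set K : ℕ := α.D * U.sup FreeGroup.norm with hK
  obtain ⟨u, hu, hJ⟩ := hU _ (α.bd x (hY hx)) (-K) 0 (by omega)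
  have hb : ∀ y ∈ S, ∀ z, |α.ρ y u z - z| ≤ K := fun y hy z => (α.bd y hy u z).trans (by
    rw [hK]
    exact_mod_cast Nat.mul_le_mul_left α.D (le_sup (f := FreeGroup.norm) hu))
  have hcut : Cut (α.ρ x u) 0 := by
    intro z
    have h1 := hJ z
    have h2 := abs_le.1 (hb x (hY hx) z)
    simp only [mem_Icc] at h1
    omega
  have hcl : ∀ n : ℤ, IsClosed {y | y ∈ Y ∧ ¬ Cut (α.ρ y u) n} := by
    intro n
    refine closed_of_local hs.1 (|n| + K + (α.D * u.norm + α.R)) fun y hy y' hy' ha h1 h2 => h1 ?_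
    intro z
    by_cases hz : |z| ≤ |n| + K
    · rw [← α.loc_at (hY hy) (hY hy') u z ha (by linarith)]
      exact h2 z
    · have h3 := abs_le.1 (hb y' (hY hy') z)
      have h4 := le_abs_self n
      have h5 := neg_abs_le n
      rcases abs_cases z with h6 | h6 <;> omega
  have hZ : IsSubshift {y | y ∈ Y ∧ ∀ n, ¬ Cut (α.ρ y u) n} := by
    constructor
    · have := isClosed_iInter hcl
      have e : {y | y ∈ Y ∧ ∀ n, ¬ Cut (α.ρ y u) n} = ⋂ n, {y | y ∈ Y ∧ ¬ Cut (α.ρ y u) n} := by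
        ext y
        simp [forall_and]
      rwa [e]
    · rintro k y ⟨hy, h1⟩
      refine ⟨hs.2 k y hy, fun n h2 => h1 (n + k) fun z => ?_⟩
      have := h2 (z - k)
      rw [α.eqv y (hY hy), sub_add_cancel] at this
      omega
  obtain ⟨M, hM⟩ := exists_empty
    (Z := fun M : ℕ => {y | y ∈ Y ∧ ∀ n : ℤ, |n| ≤ M → ¬ Cut (α.ρ y u) n}) (by
      intro M
      have := isClosed_biInter (s := {n : ℤ | |n| ≤ M}) fun n _ => hcl n
      have e : {y | y ∈ Y ∧ ∀ n : ℤ, |n| ≤ M → ¬ Cut (α.ρ y u) n} =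
          Y ∩ ⋂ n ∈ {n : ℤ | |n| ≤ M}, {y | y ∈ Y ∧ ¬ Cut (α.ρ y u) n} := by
        ext y
        simp only [Set.mem_inter_iff, Set.mem_iInter, Set.mem_ofPred_eq]
        exact ⟨fun h => ⟨h.1, fun n hn => ⟨h.1, h.2 n hn⟩⟩, fun h => ⟨h.1, fun n hn => (h.2 n hn).2⟩⟩
      rw [e]
      exact hs.1.inter this)
    (fun M y hy => ⟨hy.1, fun n hn => hy.2 n (by push_cast; linarith)⟩) (by
      intro y
      by_contra hcon
      push Not at hcon
      have h1 := hm _ hZ (fun y hy => hy.1) ⟨y, (hcon 0).1, fun n => (hcon n.natAbs).2 n (by simp)⟩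
      rw [← h1] at hx
      exact hx.2 0 hcut)
  refine α.not_faithful_of_cut hY hs.2 (hU1 u hu) (M := M) (fun y hy _ => ?_) hf
  have := hM y
  simp only [Set.mem_ofPred_eq, hy, true_and] at this
  push Not at this
  exact this

end Act

/-- some local rule action of the free group is faithful on `Z` -/
def Bad (S Z : Set (ℤ → A)) : Prop := ∃ α : Act S, α.Faithful Z

theorem bad_step [Finite A] {S Z Y : Set (ℤ → A)} (hZ : IsSubshift Z) (hZS : Z ⊆ S) (hb : Bad S Z)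
    (hY : IsSubshift Y) (hYS : Y ⊆ S) (hn : ¬ Bad S Y) :
    ∃ Z1, IsSubshift Z1 ∧ Z1 ⊆ Z ∧ Disjoint Z1 Y ∧ Bad S Z1 := by
  obtain ⟨α, hα⟩ := hb
  obtain ⟨ψ, hψ, hk⟩ := α.kill hYS hY.2 fun h => hn ⟨α, h⟩
  set β := α.comp ψ
  have hβ : β.Faithful Z := Act.Faithful.comp α hα hψ
  set Mv : (ℤ → A) → ℤ → Prop := fun x n => ∃ m, |m - n| ≤ β.D ∧ ∃ s, β.ρ x (lt s) m ≠ m with hMv
  have hcl : ∀ n : ℤ, IsClosed {x | x ∈ Z ∧ Mv x n} := by
    intro n
    refine closed_of_local hZ.1 (|n| + β.D + (β.D + β.R)) fun y hy y' hy' ha h1 => ?_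
    obtain ⟨m, hm, s, hs⟩ := h1
    refine ⟨m, hm, s, ?_⟩
    rwa [β.loc_at (hZS hy) (hZS hy') (lt s) m ha (by
      have := abs_add_le (m - n) n
      rw [sub_add_cancel] at this
      rw [norm_lt]
      push_cast
      linarith)]
  have hZ1 : IsSubshift {x | x ∈ Z ∧ ∀ n, Mv x n} := by
    constructor
    · have := isClosed_iInter hcl
      have e : {x | x ∈ Z ∧ ∀ n, Mv x n} = ⋂ n, {x | x ∈ Z ∧ Mv x n} := by
        ext y
        simp [forall_and]
      rwa [e]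
    · rintro k y ⟨hy, h1⟩
      refine ⟨hZ.2 k y hy, fun n => ?_⟩
      obtain ⟨m, hm, s, hs⟩ := h1 (n + k)
      refine ⟨m - k, by rwa [sub_sub, add_comm k], s, ?_⟩
      rw [β.eqv y (hZS hy), sub_add_cancel]
      omega
  refine ⟨_, hZ1, fun x hx => hx.1, ?_, β, ?_⟩
  · rw [Set.disjoint_left]
    rintro x ⟨-, hx⟩ hxY
    obtain ⟨m, -, s, hs⟩ := hx 0
    rw [hk x hxY s] at hs
    exact hs rfl
  by_contra hcon
  unfold Act.Faithful at hcon
  push Not at hcon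
  obtain ⟨w, hw, hfix⟩ := hcon
  obtain ⟨M, hM⟩ := exists_empty
    (Z := fun M : ℕ => {y | (y ∈ Z ∧ β.ρ y w 0 ≠ 0) ∧ ∀ n : ℤ, |n| ≤ M → Mv y n}) (by
      intro M
      have h1 := isClosed_biInter (s := {n : ℤ | |n| ≤ M}) fun n _ => hcl n
      have h2 : IsClosed {y | y ∈ Z ∧ β.ρ y w 0 ≠ 0} :=
        closed_of_local hZ.1 _ fun y hy y' hy' ha h1 => by
          rwa [β.loc_all (hZS hy) (hZS hy') w ha]
      have e : {y | (y ∈ Z ∧ β.ρ y w 0 ≠ 0) ∧ ∀ n : ℤ, |n| ≤ M → Mv y n} =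
          {y | y ∈ Z ∧ β.ρ y w 0 ≠ 0} ∩ ⋂ n ∈ {n : ℤ | |n| ≤ M}, {y | y ∈ Z ∧ Mv y n} := by
        ext y
        simp only [Set.mem_inter_iff, Set.mem_iInter, Set.mem_ofPred_eq]
        exact ⟨fun h => ⟨h.1, fun n hn => ⟨h.1.1, h.2 n hn⟩⟩,
          fun h => ⟨h.1, fun n hn => (h.2 n hn).2⟩⟩
      rw [e]
      exact h2.inter h1)
    (fun M y hy => ⟨hy.1, fun n hn => hy.2 n (by push_cast; linarith)⟩) (by
      intro y
      by_contra hcon
      push Not at hcon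
      exact (hcon 0).1.2 (hfix y ⟨(hcon 0).1.1, fun n => (hcon n.natAbs).2 n (by simp)⟩))
  refine β.not_faithful_of_cut hZS hZ.2 hw (M := M) (fun y hy hm => ?_) hβ
  have h1 := hM y
  simp only [Set.mem_ofPred_eq, hy, true_and, hMv] at h1
  push Not at h1
  obtain ⟨n, hn, h2⟩ := h1 hm
  refine ⟨n, hn, ?_⟩
  have h3 : ∀ s, Cut (β.ρ y (lt s)) n := by
    intro s z
    by_cases hz : |z - n| ≤ β.D
    · rw [h2 z hz s]
    · have h4 := abs_le.1 (β.bd y (hZS hy) (lt s) z)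
      rw [norm_lt] at h4
      rcases abs_cases (z - n) with h6 | h6 <;> omega
  have h4 : ∀ L : List Letter, Cut (β.ρ y (FreeGroup.mk L)) n := by
    intro L
    induction L with
    | nil => intro z; simp [← FreeGroup.one_eq_mk]
    | cons s L ih => rw [mk_cons, map_mul]; exact (h3 s).mul ih
  have := h4 w.toWord
  rwa [FreeGroup.mk_toWord] at this

theorem not_bad [Finite A] {S : Set (ℤ → A)} (hS : IsSubshift S) (Y : ℕ → Set (ℤ → A))
    (hY : ∀ k, IsSubshift (Y k) ∧ Y k ⊆ S ∧ (IsMinimalShift (Y k) ∨ Slow (Y k)))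
    (hc : ∀ Z, IsSubshift Z → Z ⊆ S → Z.Nonempty → ∃ k, (Z ∩ Y k).Nonempty) : ¬ Bad S S := by
  intro hb
  have hn : ∀ k, ¬ Bad S (Y k) := by
    rintro k ⟨α, hα⟩
    obtain ⟨h1, h2, h3 | h3⟩ := hY k
    · exact α.not_faithful_of_minimal h2 h1 h3 hα
    · exact α.not_faithful_of_slow h2 h1.2 h3 hα
  have step : ∀ (k : ℕ) (Z : {Z // IsSubshift Z ∧ Z ⊆ S ∧ Bad S Z}),
      ∃ Z1 : {Z // IsSubshift Z ∧ Z ⊆ S ∧ Bad S Z}, Z1.1 ⊆ Z.1 ∧ Disjoint Z1.1 (Y k) := by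
    rintro k ⟨Z, h1, h2, h3⟩
    obtain ⟨Z1, a1, a2, a3, a4⟩ := bad_step h1 h2 h3 (hY k).1 (hY k).2.1 (hn k)
    exact ⟨⟨Z1, a1, a2.trans h2, a4⟩, a2, a3⟩
  choose nxt h1 h2 using step
  set Z : ℕ → {Z // IsSubshift Z ∧ Z ⊆ S ∧ Bad S Z} :=
    fun k => Nat.rec ⟨S, hS, subset_rfl, hb⟩ nxt k with hZ
  have hne : ∀ k, (Z k).1.Nonempty := by
    intro k
    obtain ⟨α, hα⟩ := (Z k).2.2.2
    obtain ⟨x, hx, -⟩ := hα (lt (0, true)) (St_lt _).ne_one
    exact ⟨x, hx⟩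
  have h3 := IsCompact.nonempty_iInter_of_sequence_nonempty_isCompact_isClosed
    (fun k => (Z k).1) (fun k => h1 k (Z k)) hne (Z 0).2.1.1.isCompact fun k => (Z k).2.1.1
  obtain ⟨k, x, hx1, hx2⟩ := hc (⋂ k, (Z k).1)
    ⟨isClosed_iInter fun k => (Z k).2.1.1,
      fun j x hx => Set.mem_iInter.2 fun k => (Z k).2.1.2 j x (Set.mem_iInter.1 hx k)⟩
    ((Set.iInter_subset _ 0).trans (Z 0).2.2.1) h3
  exact Set.disjoint_left.1 (h2 k (Z k)) (Set.mem_iInter.1 hx1 (k + 1)) hx2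

end Pool.Agent.P.MP_13a6c0_al
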