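import Pool.Agent.P.MP_13a6c0_al.Free

/-! Finitely supported probability distributions on the free group. -/

namespace Pool.Agent.P.MP_13a6c0_al

open Finset

/-- a finite random element of the free group -/
structure Rv where
  n : Type
  fin : Fintype n
  p : n → ℝ
  g : n → FG
  nonneg : ∀ i, 0 ≤ p i
  tot : ∑ i, p i = 1

attribute [instance] Rv.fin

open Classical in
/-- real indicator of a proposition -/
noncomputable def ind (P : Prop) : ℝ := if P then 1 else 0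

lemma ind_of {P : Prop} (h : P) : ind P = 1 := by simp [ind, h]
lemma ind_of_not {P : Prop} (h : ¬ P) : ind P = 0 := by simp [ind, h]
lemma ind_nonneg (P : Prop) : 0 ≤ ind P := by unfold ind; split_ifs <;> norm_num
lemma ind_le_one (P : Prop) : ind P ≤ 1 := by unfold ind; split_ifs <;> norm_num
lemma ind_mono {P Q : Prop} (h : P → Q) : ind P ≤ ind Q := by
  by_cases hP : P
  · rw [ind_of hP, ind_of (h hP)]
  · rw [ind_of_not hP]; exact ind_nonneg _
lemma ind_congr {P Q : Prop} (h : P ↔ Q) : ind P = ind Q := by rw [propext h]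
lemma ind_le {P : Prop} {r : ℝ} (h0 : 0 ≤ r) (h1 : P → 1 ≤ r) : ind P ≤ r := by
  by_cases hP : P
  · rw [ind_of hP]; exact h1 hP
  · rw [ind_of_not hP]; exact h0

namespace Rv

/-- expectation -/
def E (μ : Rv) (φ : FG → ℝ) : ℝ := ∑ i, μ.p i * φ (μ.g i)

/-- all values satisfy `P` -/
def All (μ : Rv) (P : FG → Prop) : Prop := ∀ i, P (μ.g i)

lemma E_mono_of {μ : Rv} {P : FG → Prop} (hP : μ.All P) {φ ψ : FG → ℝ}
    (h : ∀ g, P g → φ g ≤ ψ g) : μ.E φ ≤ μ.E ψ :=
  sum_le_sum fun i _ => mul_le_mul_of_nonneg_left (h _ (hP i)) (μ.nonneg i)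

lemma E_mono (μ : Rv) {φ ψ : FG → ℝ} (h : ∀ g, φ g ≤ ψ g) : μ.E φ ≤ μ.E ψ :=
  E_mono_of (P := fun _ => True) (fun _ => trivial) fun g _ => h g

lemma E_const (μ : Rv) (c : ℝ) : μ.E (fun _ => c) = c := by
  unfold E
  rw [← sum_mul, μ.tot, one_mul]

lemma E_add (μ : Rv) (φ ψ : FG → ℝ) : μ.E (fun g => φ g + ψ g) = μ.E φ + μ.E ψ := by
  unfold E
  simp only [mul_add, sum_add_distrib]

lemma E_sub (μ : Rv) (φ ψ : FG → ℝ) : μ.E (fun g => φ g - ψ g) = μ.E φ - μ.E ψ := by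
  unfold E
  simp only [mul_sub, sum_sub_distrib]

lemma E_mul_left (μ : Rv) (c : ℝ) (φ : FG → ℝ) : μ.E (fun g => c * φ g) = c * μ.E φ := by
  unfold E
  rw [mul_sum]
  exact sum_congr rfl fun i _ => by ring

lemma E_mul_right (μ : Rv) (c : ℝ) (φ : FG → ℝ) : μ.E (fun g => φ g * c) = μ.E φ * c := by
  unfold E
  rw [sum_mul]
  exact sum_congr rfl fun i _ => by ring

lemma E_sum (μ : Rv) {κ : Type*} (s : Finset κ) (φ : κ → FG → ℝ) :
    μ.E (fun g => ∑ k ∈ s, φ k g) = ∑ k ∈ s, μ.E (φ k) := by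
  unfold E
  simp only [mul_sum]
  rw [sum_comm]

lemma E_nonneg (μ : Rv) {φ : FG → ℝ} (h : ∀ g, 0 ≤ φ g) : 0 ≤ μ.E φ := by
  have := μ.E_mono (φ := fun _ => 0) h
  rwa [E_const] at this

lemma E_le (μ : Rv) {φ : FG → ℝ} {c : ℝ} (h : ∀ g, φ g ≤ c) : μ.E φ ≤ c := by
  have := μ.E_mono (ψ := fun _ => c) h
  rwa [E_const] at this

lemma E_swap (μ ν : Rv) (f : FG → FG → ℝ) :
    μ.E (fun u => ν.E (fun v => f u v)) = ν.E (fun v => μ.E (fun u => f u v)) := by
  unfold E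
  simp only [mul_sum]
  rw [sum_comm]
  exact sum_congr rfl fun i _ => sum_congr rfl fun j _ => by ring

lemma exists_lt (μ : Rv) {φ : FG → ℝ} {c : ℝ} (h : μ.E φ < c) : ∃ i, φ (μ.g i) < c := by
  by_contra hc
  push Not at hc
  have : μ.E (fun _ => c) ≤ μ.E φ :=
    sum_le_sum fun i _ => mul_le_mul_of_nonneg_left (hc i) (μ.nonneg i)
  rw [E_const] at this
  linarith

lemma exists_bound (μ : Rv) : ∃ l : ℕ, μ.All fun g => g.norm ≤ l :=
  ⟨univ.sup fun i => (μ.g i).norm, fun i => le_sup (f := fun i => (μ.g i).norm) (mem_univ i)⟩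

/-- point mass -/
def dirac (g : FG) : Rv where
  n := Unit
  fin := inferInstance
  p := fun _ => 1
  g := fun _ => g
  nonneg := fun _ => zero_le_one
  tot := by simp

lemma E_dirac (g : FG) (φ : FG → ℝ) : (dirac g).E φ = φ g := by
  show ∑ _i : Unit, (1 : ℝ) * φ g = φ g
  simp

/-- image of a pair of independent random elements -/
def map2 (μ ν : Rv) (f : FG → FG → FG) : Rv where
  n := μ.n × ν.n
  fin := inferInstance
  p := fun i => μ.p i.1 * ν.p i.2
  g := fun i => f (μ.g i.1) (ν.g i.2)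
  nonneg := fun i => mul_nonneg (μ.nonneg _) (ν.nonneg _)
  tot := by
    rw [Fintype.sum_prod_type]
    simp only [← mul_sum, ν.tot, mul_one, μ.tot]

lemma E_map2 (μ ν : Rv) (f : FG → FG → FG) (φ : FG → ℝ) :
    (μ.map2 ν f).E φ = μ.E fun u => ν.E fun v => φ (f u v) := by
  show ∑ i : μ.n × ν.n, (μ.p i.1 * ν.p i.2) * φ (f (μ.g i.1) (ν.g i.2)) = _
  rw [Fintype.sum_prod_type]
  unfold E
  simp only [mul_sum, mul_assoc]

lemma All_map2 {μ ν : Rv} {f : FG → FG → FG} {P Q R : FG → Prop} (hP : μ.All P) (hQ : ν.All Q)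
    (h : ∀ u v, P u → Q v → R (f u v)) : (μ.map2 ν f).All R :=
  fun i => h _ _ (hP i.1) (hQ i.2)

/-- mixture -/
def mix {κ : Type} [Fintype κ] (w : κ → ℝ) (h0 : ∀ k, 0 ≤ w k) (h1 : ∑ k, w k = 1)
    (μ : κ → Rv) : Rv where
  n := Σ k, (μ k).n
  fin := inferInstance
  p := fun i => w i.1 * (μ i.1).p i.2
  g := fun i => (μ i.1).g i.2
  nonneg := fun i => mul_nonneg (h0 _) ((μ _).nonneg _)
  tot := by
    rw [Fintype.sum_sigma]
    simp only [← mul_sum, Rv.tot, mul_one, h1]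

lemma E_mix {κ : Type} [Fintype κ] (w : κ → ℝ) (h0 : ∀ k, 0 ≤ w k) (h1 : ∑ k, w k = 1)
    (μ : κ → Rv) (φ : FG → ℝ) : (mix w h0 h1 μ).E φ = ∑ k, w k * (μ k).E φ := by
  show ∑ i : Σ k, (μ k).n, (w i.1 * (μ i.1).p i.2) * φ ((μ i.1).g i.2) = _
  rw [Fintype.sum_sigma]
  unfold E
  simp only [mul_sum, mul_assoc]

lemma All_mix {κ : Type} [Fintype κ] (w : κ → ℝ) (h0 : ∀ k, 0 ≤ w k) (h1 : ∑ k, w k = 1)
    {μ : κ → Rv} {P : FG → Prop} (h : ∀ k, (μ k).All P) : (mix w h0 h1 μ).All P :=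
  fun i => h i.1 i.2

/-- uniform choice among a finite family -/
noncomputable def unif {κ : Type} [Fintype κ] [Nonempty κ] (μ : κ → Rv) : Rv :=
  mix (fun _ => (Fintype.card κ : ℝ)⁻¹) (fun _ => by positivity)
    (by
      have : (Fintype.card κ : ℝ) ≠ 0 := by exact_mod_cast Fintype.card_ne_zero
      simp [this]) μ

lemma E_unif {κ : Type} [Fintype κ] [Nonempty κ] (μ : κ → Rv) (φ : FG → ℝ) :
    (unif μ).E φ = (Fintype.card κ : ℝ)⁻¹ * ∑ k, (μ k).E φ := by
  unfold unif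
  rw [E_mix, mul_sum]

lemma All_unif {κ : Type} [Fintype κ] [Nonempty κ] {μ : κ → Rv} {P : FG → Prop}
    (h : ∀ k, (μ k).All P) : (unif μ).All P := All_mix _ _ _ h

/-- random walk with uniformly chosen steps -/
noncomputable def walk {κ : Type} [Fintype κ] [Nonempty κ] (s : κ → FG) : ℕ → Rv
  | 0 => dirac 1
  | n + 1 => (unif fun k => dirac (s k)).map2 (walk s n) (· * ·)

lemma E_walk_zero {κ : Type} [Fintype κ] [Nonempty κ] (s : κ → FG) (φ : FG → ℝ) :
    (walk s 0).E φ = φ 1 := E_dirac _ _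

lemma E_walk_succ {κ : Type} [Fintype κ] [Nonempty κ] (s : κ → FG) (n : ℕ) (φ : FG → ℝ) :
    (walk s (n + 1)).E φ =
      (Fintype.card κ : ℝ)⁻¹ * ∑ k, (walk s n).E fun g => φ (s k * g) := by
  rw [walk, E_map2, E_unif]
  simp only [E_dirac]

lemma All_walk {κ : Type} [Fintype κ] [Nonempty κ] {s : κ → FG} {R : ℕ}
    (hs : ∀ k, (s k).norm ≤ R) (n : ℕ) : (walk s n).All fun g => g.norm ≤ R * n := by
  induction n with
  | zero => intro i; show (1 : FG).norm ≤ _; simp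
  | succ n ih =>
    refine All_map2 (P := fun g => g.norm ≤ R) (All_unif fun k _ => hs k) ih ?_
    intro u v hu hv
    have := FreeGroup.norm_mul_le u v
    rw [Nat.mul_succ]
    omega

end Rv

open Rv

/-- the simple random walk has spectral radius below one -/
lemma walk_point_le (n : ℕ) (h : FG) : (walk lt n).E (fun g => ind (g = h)) ≤ (7 / 8) ^ n := by
  have key : ∀ n : ℕ, (walk lt n).E (fun g => (1 / 2 : ℝ) ^ (g * h⁻¹).norm) ≤ (7 / 8) ^ n := by
    intro n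
    induction n with
    | zero =>
      rw [E_walk_zero, pow_zero]
      exact pow_le_one₀ (by norm_num) (by norm_num)
    | succ n ih =>
      rw [E_walk_succ, ← E_sum]
      have := (walk lt n).E_mono (φ := fun g => ∑ k : Letter, (1 / 2 : ℝ) ^ (lt k * g * h⁻¹).norm)
        (ψ := fun g => 7 / 2 * (1 / 2 : ℝ) ^ (g * h⁻¹).norm) fun g => by
          simpa only [mul_assoc] using sum_half_pow_norm (g * h⁻¹)
      rw [E_mul_left] at this
      have hc : (Fintype.card Letter : ℝ) = 4 := by simp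
      rw [hc, pow_succ]
      linarith
  refine le_trans ((walk lt n).E_mono fun g => ?_) (key n)
  refine ind_le (by positivity) ?_
  rintro rfl
  simp

end Pool.Agent.P.MP_13a6c0_al
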