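import Pool.Agent.P.MP_13a6c0_al.Dist

/-! The inner product on finitely supported functions on the integers and random walk operators. -/

namespace Pool.Agent.P.MP_13a6c0_al

open Finset Rv

abbrev V := ℤ →₀ ℝ

/-- inner product -/
noncomputable def B : V →ₗ[ℝ] V →ₗ[ℝ] ℝ :=
  Finsupp.lsum ℝ fun z => LinearMap.toSpanSingleton ℝ _ (Finsupp.lapply z)

lemma B_single (z : ℤ) (a : ℝ) (g : V) : B (Finsupp.single z a) g = a * g z := by
  simp [B]

lemma B_apply (f g : V) : B f g = ∑ z ∈ f.support, f z * g z := by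
  simp [B, Finsupp.lsum_apply, Finsupp.sum, LinearMap.sum_apply]

lemma B_eq_sum {f : V} {s : Finset ℤ} (hs : f.support ⊆ s) (g : V) :
    B f g = ∑ z ∈ s, f z * g z := by
  rw [B_apply]
  refine sum_subset hs fun z _ hz => ?_
  rw [Finsupp.notMem_support_iff.1 hz, zero_mul]

lemma B_symm (f g : V) : B f g = B g f := by
  rw [B_eq_sum (s := f.support ∪ g.support) subset_union_left,
    B_eq_sum (s := f.support ∪ g.support) subset_union_right]
  exact sum_congr rfl fun z _ => mul_comm _ _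

lemma B_nonneg (f : V) : 0 ≤ B f f := by
  rw [B_apply]
  exact sum_nonneg fun z _ => mul_self_nonneg _

/-- push forward along a permutation -/
noncomputable def T (e : Equiv.Perm ℤ) : V →ₗ[ℝ] V := Finsupp.lmapDomain ℝ ℝ e

lemma T_single (e : Equiv.Perm ℤ) (z : ℤ) (a : ℝ) :
    T e (Finsupp.single z a) = Finsupp.single (e z) a := by
  simp [T]

lemma T_apply (e : Equiv.Perm ℤ) (f : V) (z : ℤ) : T e f z = f (e⁻¹ z) := by
  have := Finsupp.mapDomain_apply e.injective f (e⁻¹ z)
  have h : e (e⁻¹ z) = z := by simp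
  rw [← this, h]
  rfl

lemma T_mul (e e' : Equiv.Perm ℤ) (f : V) : T (e * e') f = T e (T e' f) := by
  ext z
  simp [T_apply]

lemma T_one (f : V) : T 1 f = f := by
  ext z
  simp [T_apply]

lemma B_T (e : Equiv.Perm ℤ) (f g : V) : B (T e f) g = B f (T e⁻¹ g) := by
  induction f using Finsupp.induction_linear with
  | zero => simp
  | add f f' h h' => simp [h, h']
  | single z a => rw [T_single, B_single, B_single, T_apply, inv_inv]

lemma B_T_T (e : Equiv.Perm ℤ) (f g : V) : B (T e f) (T e g) = B f g := by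
  rw [B_T, ← T_mul, inv_mul_cancel, T_one]

lemma B_sub_sub (f g : V) : B (f - g) (f - g) = B f f - 2 * B f g + B g g := by
  simp only [map_sub, LinearMap.sub_apply, B_symm g f]
  ring

lemma B_le (f g : V) {c : ℝ} (hc : 0 < c) : B f g ≤ (c * B f f + B g g / c) / 2 := by
  have h := B_nonneg (c • f - g)
  rw [B_sub_sub] at h
  simp only [map_smul, LinearMap.smul_apply, smul_eq_mul] at h
  have : 0 ≤ (c * (c * B f f) - 2 * (c * B f g) + B g g) / c := by positivity
  have e : (c * (c * B f f) - 2 * (c * B f g) + B g g) / c = c * B f f - 2 * B f g + B g g / c := by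
    field_simp
  linarith

section walkop
variable {κ : Type} [Fintype κ] [Nonempty κ]

/-- averaging operator -/
noncomputable def Pw (ρ : FG →* Equiv.Perm ℤ) (s : κ → FG) : V →ₗ[ℝ] V :=
  (Fintype.card κ : ℝ)⁻¹ • ∑ k, T (ρ (s k))

omit [Nonempty κ] in
lemma P_apply (ρ : FG →* Equiv.Perm ℤ) (s : κ → FG) (f : V) :
    Pw ρ s f = (Fintype.card κ : ℝ)⁻¹ • ∑ k, T (ρ (s k)) f := by
  simp [Pw, LinearMap.sum_apply]

lemma E_walk_lin (ρ : FG →* Equiv.Perm ℤ) (s : κ → FG) (f : V) (n : ℕ) (φ : V →ₗ[ℝ] ℝ) :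
    (walk s n).E (fun g => φ (T (ρ g) f)) = φ ((Pw ρ s ^ n) f) := by
  induction n generalizing φ with
  | zero => simp [E_walk_zero, T_one]
  | succ n ih =>
    rw [E_walk_succ, pow_succ', Module.End.mul_apply, P_apply, map_smul, map_sum, smul_eq_mul]
    congr 1
    refine sum_congr rfl fun k _ => ?_
    have := ih (φ.comp (T (ρ (s k))))
    simp only [LinearMap.comp_apply] at this
    rw [← this]
    simp only [map_mul, T_mul]

lemma B_P_diff (ρ : FG →* Equiv.Perm ℤ) (s : κ → FG) (f : V) :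
    2 * (Fintype.card κ : ℝ) ^ 2 * (B f f - B (Pw ρ s f) (Pw ρ s f)) =
      ∑ k, ∑ l, B (T (ρ (s k)) f - T (ρ (s l)) f) (T (ρ (s k)) f - T (ρ (s l)) f) := by
  have hc : (Fintype.card κ : ℝ) ≠ 0 := by exact_mod_cast Fintype.card_ne_zero
  simp only [B_sub_sub, B_T_T, sum_add_distrib, sum_sub_distrib, sum_const, card_univ,
    nsmul_eq_mul, P_apply, map_smul, map_sum, LinearMap.smul_apply, LinearMap.sum_apply,
    smul_eq_mul, ← mul_sum]
  have : ∑ k, ∑ l, B (T (ρ (s l)) f) (T (ρ (s k)) f) =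
      ∑ k, ∑ l, B (T (ρ (s k)) f) (T (ρ (s l)) f) := sum_comm
  rw [this]
  field_simp
  ring

lemma B_step_le (ρ : FG →* Equiv.Perm ℤ) (s : κ → FG) (f : V) (k l : κ) :
    B (T (ρ (s k)) f - T (ρ (s l)) f) (T (ρ (s k)) f - T (ρ (s l)) f) ≤
      2 * (Fintype.card κ : ℝ) ^ 2 * (B f f - B (Pw ρ s f) (Pw ρ s f)) := by
  rw [B_P_diff]
  refine le_trans ?_ (single_le_sum (f := fun k => ∑ l, B (T (ρ (s k)) f - T (ρ (s l)) f)
    (T (ρ (s k)) f - T (ρ (s l)) f)) (fun k _ => sum_nonneg fun l _ => B_nonneg _) (mem_univ k))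
  exact single_le_sum (f := fun l => B (T (ρ (s k)) f - T (ρ (s l)) f)
    (T (ρ (s k)) f - T (ρ (s l)) f)) (fun l _ => B_nonneg _) (mem_univ l)

end walkop

section markov
variable (ρ : FG →* Equiv.Perm ℤ)

lemma P_lt_symm (f g : V) : B (Pw ρ lt f) g = B f (Pw ρ lt g) := by
  simp only [P_apply, map_smul, map_sum, LinearMap.smul_apply, LinearMap.sum_apply, smul_eq_mul]
  congr 1
  have e : Letter ≃ Letter := Function.Involutive.toPerm iv iv_iv
  rw [← Equiv.sum_comp (Function.Involutive.toPerm iv iv_iv)]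
  refine sum_congr rfl fun k _ => ?_
  rw [B_T, ← map_inv, lt_inv]
  simp [iv_iv]

lemma P_lt_lower (f : V) : 0 ≤ B f f + B (Pw ρ lt f) f := by
  have key : ∀ k : Letter, - B f f ≤ B (T (ρ (lt k)) f) f := by
    intro k
    have h := B_nonneg (T (ρ (lt k)) f - (-f))
    rw [B_sub_sub, B_T_T] at h
    simp only [map_neg, LinearMap.neg_apply] at h
    linarith
  have := sum_le_sum fun k (_ : k ∈ (univ : Finset Letter)) => key k
  simp only [P_apply, map_smul, map_sum, LinearMap.smul_apply, LinearMap.sum_apply, smul_eq_mul]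
  simp only [sum_const, card_univ, nsmul_eq_mul] at this
  have hc : (Fintype.card Letter : ℝ) = 4 := by simp
  rw [hc] at this ⊢
  linarith

lemma P_lt_upper (f : V) : B (Pw ρ lt f) f ≤ B f f := by
  have key : ∀ k : Letter, B (T (ρ (lt k)) f) f ≤ B f f := by
    intro k
    have h := B_nonneg (T (ρ (lt k)) f - f)
    rw [B_sub_sub, B_T_T] at h
    linarith
  have := sum_le_sum fun k (_ : k ∈ (univ : Finset Letter)) => key k
  simp only [P_apply, map_smul, map_sum, LinearMap.smul_apply, LinearMap.sum_apply, smul_eq_mul]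
  simp only [sum_const, card_univ, nsmul_eq_mul] at this
  have hc : (Fintype.card Letter : ℝ) = 4 := by simp
  rw [hc] at this ⊢
  linarith

/-- Dirichlet energy -/
noncomputable def En2 (f : V) : ℝ := B f f - B (Pw ρ lt f) f

lemma En2_P (f : V) : En2 ρ (Pw ρ lt f) ≤ En2 ρ f := by
  have h := P_lt_lower ρ (f - Pw ρ lt f)
  simp only [map_sub, LinearMap.sub_apply] at h
  have e1 : B f (Pw ρ lt f) = B (Pw ρ lt f) f := B_symm _ _
  have e2 : B (Pw ρ lt (Pw ρ lt f)) f = B (Pw ρ lt f) (Pw ρ lt f) := P_lt_symm ρ _ _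
  unfold En2
  linarith

lemma En2_pow (f : V) (n : ℕ) : En2 ρ ((Pw ρ lt ^ n) f) ≤ En2 ρ f := by
  induction n with
  | zero => simp
  | succ n ih =>
    rw [pow_succ', Module.End.mul_apply]
    exact (En2_P ρ _).trans ih

lemma markov_type (f : V) (n : ℕ) : B f f - B ((Pw ρ lt ^ n) f) f ≤ n * En2 ρ f := by
  induction n with
  | zero => simp
  | succ n ih =>
    rw [pow_succ', Module.End.mul_apply]
    have h1 := En2_pow ρ f n
    set y := (Pw ρ lt ^ n) f
    have h2 := P_lt_upper ρ (y - f)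
    simp only [map_sub, LinearMap.sub_apply] at h2
    have e1 : B f y = B y f := B_symm _ _
    have e2 : B (Pw ρ lt f) y = B (Pw ρ lt y) f := by rw [P_lt_symm, B_symm]
    unfold En2 at *
    push_cast
    linarith

lemma En2_eq (f : V) : En2 ρ f = (∑ k : Letter, B (T (ρ (lt k)) f - f) (T (ρ (lt k)) f - f)) / 8 := by
  simp only [B_sub_sub, B_T_T, En2, P_apply, map_smul, map_sum, LinearMap.smul_apply,
    LinearMap.sum_apply, smul_eq_mul, sum_add_distrib, sum_sub_distrib, sum_const, card_univ,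
    nsmul_eq_mul, ← mul_sum]
  have hc : (Fintype.card Letter : ℝ) = 4 := by simp
  rw [hc]
  ring

/-- mean square displacement of a function under the simple random walk -/
lemma walk_sq_le (f : V) (n : ℕ) {c : ℝ}
    (hc : ∀ k : Letter, B (T (ρ (lt k)) f - f) (T (ρ (lt k)) f - f) ≤ c) :
    (walk lt n).E (fun g => B (T (ρ g) f - f) (T (ρ g) f - f)) ≤ n * c := by
  have h1 : En2 ρ f ≤ c / 2 := by
    rw [En2_eq]
    have := sum_le_sum fun k (_ : k ∈ (univ : Finset Letter)) => hc k
    simp only [sum_const, card_univ, nsmul_eq_mul] at this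
    have hc : (Fintype.card Letter : ℝ) = 4 := by simp
    rw [hc] at this
    linarith
  have h2 := markov_type ρ f n
  have h3 := E_walk_lin ρ lt f n (B.flip f)
  simp only [LinearMap.flip_apply] at h3
  simp only [B_sub_sub, B_T_T]
  rw [E_add, E_sub, E_const, E_mul_left, h3]
  have : (0 : ℝ) ≤ n := Nat.cast_nonneg n
  nlinarith

end markov

end Pool.Agent.P.MP_13a6c0_al
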