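import Mathlib

/-! Combinatorics of the free group of rank two. -/

namespace Pool.Agent.P.MP_13a6c0_al

abbrev FG := FreeGroup (Fin 2)
abbrev Letter := Fin 2 × Bool

/-- the group element of a letter -/
def lt (x : Letter) : FG := FreeGroup.mk [x]

/-- the inverse letter -/
def iv (x : Letter) : Letter := (x.1, !x.2)

lemma iv_iv (x : Letter) : iv (iv x) = x := by simp [iv]

lemma lt_inv (x : Letter) : (lt x)⁻¹ = lt (iv x) := by
  simp [lt, iv, FreeGroup.inv_mk, FreeGroup.invRev]

lemma toWord_lt (x : Letter) : (lt x).toWord = [x] := by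
  simp [lt, FreeGroup.toWord_mk]

lemma norm_lt (x : Letter) : (lt x).norm = 1 := by
  simp [FreeGroup.norm, toWord_lt]

/-- first letter -/
def St (x : Letter) (g : FG) : Prop := g.toWord.head? = some x

/-- last letter -/
def En (x : Letter) (g : FG) : Prop := g.toWord.getLast? = some x

lemma St_lt (x : Letter) : St x (lt x) := by simp [St, toWord_lt]
lemma En_lt (x : Letter) : En x (lt x) := by simp [En, toWord_lt]

lemma St.ne_one {x : Letter} {g : FG} (h : St x g) : g ≠ 1 := by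
  rintro rfl
  simp [St] at h

lemma St.inv {x : Letter} {g : FG} (h : St x g) : En (iv x) g⁻¹ := by
  unfold St at h
  simp [En, FreeGroup.invRev, h, iv]

lemma En.inv {x : Letter} {g : FG} (h : En x g) : St (iv x) g⁻¹ := by
  unfold En at h
  simp [St, FreeGroup.invRev, h, iv]

lemma toWord_mul_of {x y : Letter} {g h : FG} (hg : En y g) (hh : St x h) (hxy : x ≠ iv y) :
    (g * h).toWord = g.toWord ++ h.toWord := by
  rw [FreeGroup.toWord_mul]
  apply FreeGroup.IsReduced.reduce_eq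
  have h1 : FreeGroup.IsReduced g.toWord := FreeGroup.isReduced_toWord
  have h2 : FreeGroup.IsReduced h.toWord := FreeGroup.isReduced_toWord
  unfold FreeGroup.IsReduced at *
  rw [List.isChain_append]
  refine ⟨h1, h2, ?_⟩
  intro u hu v hv
  unfold En at hg
  unfold St at hh
  rw [hg] at hu
  rw [hh] at hv
  simp only [Option.mem_def, Option.some.injEq] at hu hv
  subst hu hv
  intro e
  by_contra hne
  apply hxy
  obtain ⟨a, b⟩ := x
  obtain ⟨c, d⟩ := y
  simp only [iv] at *
  subst e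
  cases b <;> cases d <;> simp_all

lemma St.mul {x y z : Letter} {g h : FG} (hz : St z g) (hg : En y g) (hh : St x h)
    (hxy : x ≠ iv y) : St z (g * h) := by
  unfold St at *
  rw [toWord_mul_of hg hh hxy, List.head?_append, hz]
  rfl

lemma En.mul {x y z : Letter} {g h : FG} (hz : En z h) (hg : En y g) (hh : St x h)
    (hxy : x ≠ iv y) : En z (g * h) := by
  unfold En at hz ⊢
  rw [toWord_mul_of hg hh hxy, List.getLast?_append, hz]
  rfl

lemma exists_St_En {g : FG} (hg : g ≠ 1) : ∃ x y, St x g ∧ En y g := by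
  have h : g.toWord ≠ [] := fun e => hg (FreeGroup.toWord_eq_nil_iff.1 e)
  exact ⟨g.toWord.head h, g.toWord.getLast h, List.head?_eq_some_head h,
    List.getLast?_eq_some_getLast h⟩

lemma conj_St_En {x y s : Letter} {g : FG} (h1 : St x g) (h2 : En y g) (hx : x ≠ iv s)
    (hy : s ≠ y) : St s (lt s * g * (lt s)⁻¹) ∧ En (iv s) (lt s * g * (lt s)⁻¹) := by
  have a1 : St s (lt s * g) := (St_lt s).mul (En_lt s) h1 hx
  have a2 : En y (lt s * g) := h2.mul (En_lt s) h1 hx
  have a3 : iv s ≠ iv y := fun e => hy (by rw [← iv_iv s, e, iv_iv])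
  rw [lt_inv]
  exact ⟨a1.mul a2 (St_lt _) a3, (En_lt _).mul a2 (St_lt _) a3⟩

lemma exists_conj (s : Letter) {g : FG} (hg : g ≠ 1) : ∃ y : Letter,
    St s ((lt s * lt y) * g * (lt s * lt y)⁻¹) ∧ En (iv s) ((lt s * lt y) * g * (lt s * lt y)⁻¹) := by
  obtain ⟨x, z, h1, h2⟩ := exists_St_En hg
  have : ∀ x z s : Letter, ∃ y : Letter, x ≠ iv y ∧ y ≠ z ∧ y ≠ iv s := by decide
  obtain ⟨y, e1, e2, e3⟩ := this x z s
  obtain ⟨b1, b2⟩ := conj_St_En h1 h2 e1 e2
  have e4 : s ≠ iv y := fun e => e3 (by rw [e, iv_iv])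
  have := conj_St_En b1 b2 e3 e4
  refine ⟨y, ?_⟩
  have e : (lt s * lt y) * g * (lt s * lt y)⁻¹ = lt s * (lt y * g * (lt y)⁻¹) * (lt s)⁻¹ := by group
  rw [e]
  exact this

/-- the sixteen conjugators -/
def tau (t : Letter × Letter) : FG := (lt (0, true) * lt t.1)⁻¹ * (lt (1, true) * lt t.2)

lemma norm_tau (t : Letter × Letter) : (tau t).norm ≤ 4 := by
  unfold tau
  have h1 := FreeGroup.norm_mul_le (lt (0, true) * lt t.1)⁻¹ (lt (1, true) * lt t.2)
  have h2 := FreeGroup.norm_mul_le (lt (0, true)) (lt t.1)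
  have h3 := FreeGroup.norm_mul_le (lt (1, true)) (lt t.2)
  rw [FreeGroup.norm_inv_eq] at h1
  simp only [norm_lt] at h2 h3
  omega

lemma exists_tau {g h : FG} (hg : g ≠ 1) (hh : h ≠ 1) : ∃ t : Letter × Letter,
    g * (tau t * h * (tau t)⁻¹) * g⁻¹ * (tau t * h * (tau t)⁻¹)⁻¹ ≠ 1 := by
  obtain ⟨y1, a1, a2⟩ := exists_conj (0, true) hg
  obtain ⟨y2, b1, b2⟩ := exists_conj (1, true) hh
  refine ⟨(y1, y2), ?_⟩
  set σ := lt (0, true) * lt y1 with hσ
  set τ := lt (1, true) * lt y2 with hτ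
  set U := σ * g * σ⁻¹
  set V := τ * h * τ⁻¹
  have c1 : St (0, true) U⁻¹ := by simpa [iv_iv] using a2.inv
  have c2 : En (iv (0, true)) U⁻¹ := a1.inv
  have d1 : St (1, true) V⁻¹ := by simpa [iv_iv] using b2.inv
  have n1 : ((1, true) : Letter) ≠ iv (iv (0, true)) := by decide
  have n2 : ((0, true) : Letter) ≠ iv (iv (1, true)) := by decide
  have e1 : St (0, true) (U * V) := a1.mul a2 b1 n1
  have e2 : En (iv (1, true)) (U * V) := b2.mul a2 b1 n1
  have f1 : St (0, true) (U * V * U⁻¹) := e1.mul e2 c1 n2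
  have f2 : En (iv (0, true)) (U * V * U⁻¹) := c2.mul e2 c1 n2
  have g1 : St (0, true) (U * V * U⁻¹ * V⁻¹) := f1.mul f2 d1 n1
  intro e
  apply g1.ne_one
  have : U * V * U⁻¹ * V⁻¹ = σ * (g * (tau (y1, y2) * h * (tau (y1, y2))⁻¹) * g⁻¹ *
      (tau (y1, y2) * h * (tau (y1, y2))⁻¹)⁻¹) * σ⁻¹ := by
    have : tau (y1, y2) = σ⁻¹ * τ := rfl
    rw [this]
    simp only [U, V]
    group
  rw [this, e]
  simp

/-- one step of the simple random walk contracts the function `2 ^ (-norm)` -/
lemma sum_half_pow_norm (g : FG) :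
    ∑ x : Letter, (1 / 2 : ℝ) ^ (lt x * g).norm ≤ 7 / 2 * (1 / 2 : ℝ) ^ g.norm := by
  by_cases hg : g = 1
  · subst hg
    simp [norm_lt]
    norm_num
  obtain ⟨x, y, h1, -⟩ := exists_St_En hg
  have key : ∀ s : Letter, (1 / 2 : ℝ) ^ (lt s * g).norm ≤
      (1 / 2 + if s = iv x then 3 / 2 else 0) * (1 / 2 : ℝ) ^ g.norm := by
    intro s
    split_ifs with hs
    · have h2 : g.norm ≤ (lt s * g).norm + 1 := by
        have := FreeGroup.norm_mul_le (lt s)⁻¹ (lt s * g)
        rw [FreeGroup.norm_inv_eq, norm_lt, inv_mul_cancel_left] at this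
        omega
      have h3 : (1 / 2 : ℝ) ^ ((lt s * g).norm + 1) ≤ (1 / 2 : ℝ) ^ g.norm :=
        pow_le_pow_of_le_one (by norm_num) (by norm_num) h2
      rw [pow_succ] at h3
      linarith
    · have h2 : x ≠ iv s := fun e => hs (by rw [e, iv_iv])
      have h3 : (lt s * g).norm = g.norm + 1 := by
        simp [FreeGroup.norm, toWord_mul_of (En_lt s) h1 h2, toWord_lt]
      rw [h3, pow_succ]
      linarith
  refine (Finset.sum_le_sum fun s _ => key s).trans ?_
  rw [← Finset.sum_mul, Finset.sum_add_distrib]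
  simp
  norm_num

lemma finite_ball (n : ℕ) : {g : FG | g.norm ≤ n}.Finite := by
  have h := (List.finite_length_le Letter n).preimage (f := FreeGroup.toWord)
    (FreeGroup.toWord_injective.injOn)
  exact h

lemma mk_cons (x : Letter) (L : List Letter) : FreeGroup.mk (x :: L) = lt x * FreeGroup.mk L := by
  simp [lt, FreeGroup.mul_mk]

/-- bounded displacement actions on the integers -/
def Bd (D : ℕ) (ρ : FG →* Equiv.Perm ℤ) : Prop := ∀ g z, |ρ g z - z| ≤ D * g.norm

lemma bd_of_letters {D : ℕ} {ρ : FG →* Equiv.Perm ℤ} (h : ∀ x z, |ρ (lt x) z - z| ≤ D) :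
    Bd D ρ := by
  have key : ∀ (L : List Letter) (z : ℤ), |ρ (FreeGroup.mk L) z - z| ≤ D * L.length := by
    intro L
    induction L with
    | nil => intro z; simp [← FreeGroup.one_eq_mk]
    | cons x L ih =>
      intro z
      rw [mk_cons, map_mul, Equiv.Perm.mul_apply]
      have h1 := h x (ρ (FreeGroup.mk L) z)
      have h2 := ih z
      rw [abs_le] at *
      push_cast [List.length_cons]
      constructor <;> nlinarith
  intro g z
  have := key g.toWord z
  rwa [FreeGroup.mk_toWord] at this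

end Pool.Agent.P.MP_13a6c0_al
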