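import Pool.Agent.P.MP_13a6c0_al.Reiter

/-! Every finite interval is preserved by a nontrivial element of bounded length. -/

namespace Pool.Agent.P.MP_13a6c0_al

open Finset Rv

lemma sum_sq_le_B (f : V) (s : Finset ℤ) : ∑ z ∈ s, f z * f z ≤ B f f := by
  rw [B_eq_sum (s := f.support ∪ s) subset_union_left]
  exact sum_le_sum_of_subset_of_nonneg subset_union_right fun z _ _ => mul_self_nonneg _

/-- trapezoid profile -/
def trap (p q : ℤ) (m : ℕ) (z : ℤ) : ℤ := max 0 (min m (min (z - p + m) (q + m - z)))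

/-- trapezoid function -/
noncomputable def trapF (p q : ℤ) (m : ℕ) : V :=
  Finsupp.onFinset (Icc (p - m) (q + m)) (fun z => (trap p q m z : ℝ)) (fun z hz => by
    rw [mem_Icc]
    have : trap p q m z ≠ 0 := by exact_mod_cast hz
    unfold trap at this
    omega)

lemma trapF_apply (p q : ℤ) (m : ℕ) (z : ℤ) : trapF p q m z = trap p q m z := rfl

lemma trap_step {p q : ℤ} (hpq : p ≤ q) (m D : ℕ) {e : Equiv.Perm ℤ} (he : ∀ z, |e⁻¹ z - z| ≤ D) :
    B (T e (trapF p q m) - trapF p q m) (T e (trapF p q m) - trapF p q m) ≤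
      2 * (m + 2 * D + 1) * D ^ 2 := by
  set Z : Finset ℤ := Icc (p - m - D) (p + D) ∪ Icc (q - D) (q + m + D) with hZ
  have hsupp : (T e (trapF p q m) - trapF p q m).support ⊆ Z := by
    intro z hz
    rw [Finsupp.mem_support_iff, Finsupp.sub_apply, T_apply, trapF_apply, trapF_apply,
      sub_ne_zero] at hz
    have h1 : trap p q m (e⁻¹ z) ≠ trap p q m z := by exact_mod_cast hz
    have h2 := abs_le.1 (he z)
    unfold trap at h1
    simp only [hZ, mem_union, mem_Icc]
    omega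
  rw [B_eq_sum hsupp]
  have h1 : ∑ z ∈ Z, (T e (trapF p q m) - trapF p q m) z * (T e (trapF p q m) - trapF p q m) z ≤
      ∑ _z ∈ Z, (D : ℝ) ^ 2 := by
    refine sum_le_sum fun z _ => ?_
    rw [Finsupp.sub_apply, T_apply, trapF_apply, trapF_apply]
    have h2 := abs_le.1 (he z)
    have h3 : trap p q m (e⁻¹ z) - trap p q m z ≤ D ∧ -(D : ℤ) ≤ trap p q m (e⁻¹ z) - trap p q m z := by
      unfold trap
      omega
    have h4 : (trap p q m (e⁻¹ z) : ℝ) - trap p q m z ≤ D := by exact_mod_cast h3.1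
    have h5 : -(D : ℝ) ≤ (trap p q m (e⁻¹ z) : ℝ) - trap p q m z := by exact_mod_cast h3.2
    nlinarith
  have h2 : (Z.card : ℝ) ≤ 2 * (m + 2 * D + 1) := by
    have h3 := card_union_le (Icc (p - m - D) (p + D)) (Icc (q - D) (q + m + D))
    rw [Int.card_Icc, Int.card_Icc] at h3
    have : Z.card ≤ 2 * (m + 2 * D + 1) := by rw [hZ]; omega
    exact_mod_cast this
  rw [sum_const, nsmul_eq_mul] at h1
  refine h1.trans ?_
  gcongr

lemma trap_card {p q : ℤ} (hpq : p ≤ q) {m : ℕ} (hm : 0 < m) (e : Equiv.Perm ℤ) (A : Finset ℤ)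
    (hA : ∀ z ∈ A, ¬ (z ∈ Icc p q ↔ e⁻¹ z ∈ Icc p q)) :
    (A.card : ℝ) ≤ B (T e (trapF p q m) - trapF p q m) (T e (trapF p q m) - trapF p q m) / m ^ 2
      + 4 * m := by
  classical
  set d := T e (trapF p q m) - trapF p q m with hd
  set Rm : Finset ℤ := Ico (p - m) p ∪ Ioc q (q + m) with hRm
  have hR : Rm.card ≤ 2 * m := by
    have h3 := card_union_le (Ico (p - m) p) (Ioc q (q + m))
    rw [Int.card_Ico, Int.card_Ioc] at h3
    rw [hRm]; omega
  set A1 := A.filter fun z => d z * d z = (m : ℝ) ^ 2 with hA1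
  have hsub : A ⊆ A1 ∪ Rm ∪ Rm.image e := by
    intro z hz
    by_cases h1 : z ∈ Rm
    · simp [h1]
    by_cases h2 : e⁻¹ z ∈ Rm
    · exact mem_union_right _ (mem_image.2 ⟨_, h2, by simp⟩)
    refine mem_union_left _ (mem_union_left _ (mem_filter.2 ⟨hz, ?_⟩))
    have h3 := hA z hz
    rw [hd, Finsupp.sub_apply, T_apply, trapF_apply, trapF_apply]
    simp only [hRm, mem_union, mem_Ico, mem_Ioc, mem_Icc] at h1 h2 h3
    have : trap p q m (e⁻¹ z) - trap p q m z = m ∨ trap p q m (e⁻¹ z) - trap p q m z = -m := by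
      unfold trap
      omega
    rcases this with h | h
    · have : (trap p q m (e⁻¹ z) : ℝ) - trap p q m z = m := by exact_mod_cast h
      rw [this]; ring
    · have : (trap p q m (e⁻¹ z) : ℝ) - trap p q m z = -m := by exact_mod_cast h
      rw [this]; ring
  have h1 : A.card ≤ A1.card + 4 * m := by
    have a1 := card_le_card hsub
    have a2 := card_union_le (A1 ∪ Rm) (Rm.image e)
    have a3 := card_union_le A1 Rm
    have a4 := card_image_le (s := Rm) (f := e)
    omega
  have h2 : (A1.card : ℝ) * m ^ 2 ≤ B d d := by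
    refine le_trans (le_of_eq ?_) (sum_sq_le_B d A1)
    rw [sum_congr rfl fun z hz => (mem_filter.1 hz).2, sum_const, nsmul_eq_mul]
  have h3 : (A.card : ℝ) ≤ A1.card + 4 * m := by exact_mod_cast h1
  have hm' : (0 : ℝ) < m ^ 2 := by positivity
  rw [← le_div_iff₀ hm'] at h2
  linarith

theorem interval (D : ℕ) : ∃ U : Finset FG, (∀ u ∈ U, u ≠ 1) ∧
    ∀ ρ : FG →* Equiv.Perm ℤ, Bd D ρ → ∀ p q : ℤ, p ≤ q →
      ∃ u ∈ U, ∀ z, ρ u z ∈ Icc p q ↔ z ∈ Icc p q := by
  classical
  set lam : ℝ := 64 * (D + 1) with hlam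
  set C : ℝ := 2 * (2 * D + 2) * D ^ 2 + 4 with hC
  have hlam0 : 0 < lam := by positivity
  have hC0 : 0 < C := by positivity
  obtain ⟨m, hm⟩ := exists_nat_gt (16 * lam * C + 1)
  have hm1 : (1 : ℝ) < m := lt_of_le_of_lt (by linarith [show 0 ≤ 16 * lam * C by positivity]) hm
  have hm0 : 0 < m := by exact_mod_cast (zero_lt_one.trans hm1)
  set n := m ^ 2 with hn
  refine ⟨(finite_ball (2 * n)).toFinset.erase 1, fun u hu => (mem_erase.1 hu).1, ?_⟩
  intro ρ hρ p q hpq
  by_contra hcon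
  push Not at hcon
  set Z : Finset ℤ := Icc (p - D * n) (p + D * n) ∪ Icc (q - D * n) (q + D * n) with hZ
  set A : FG → Finset ℤ := fun g => Z.filter fun z => ¬ (z ∈ Icc p q ↔ (ρ g)⁻¹ z ∈ Icc p q)
    with hA
  set Bl := (finite_ball n).toFinset with hBl
  have hBl' : ∀ g, g ∈ Bl ↔ g.norm ≤ n := fun g => by simp [hBl]
  have hmemA : ∀ g : FG, g.norm ≤ n → ∀ z, z ∈ A g ↔ ¬ (z ∈ Icc p q ↔ (ρ g)⁻¹ z ∈ Icc p q) := by
    intro g hg z
    simp only [hA, mem_filter, and_iff_right_iff_imp]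
    intro h
    have h1 := abs_le.1 (hρ g⁻¹ z)
    rw [map_inv, FreeGroup.norm_inv_eq] at h1
    have h2 : (D : ℤ) * g.norm ≤ D * n := by exact_mod_cast Nat.mul_le_mul_left D hg
    simp only [hZ, mem_union, mem_Icc] at h ⊢
    omega
  have hinj : Set.InjOn A Bl := by
    intro g hg g' hg' e
    rw [mem_coe, hBl'] at hg hg'
    by_contra hne
    have hu : g⁻¹ * g' ∈ (finite_ball (2 * n)).toFinset.erase 1 := by
      rw [mem_erase]
      refine ⟨fun h => hne (inv_mul_eq_one.1 h), ?_⟩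
      have := FreeGroup.norm_mul_le g⁻¹ g'
      rw [FreeGroup.norm_inv_eq] at this
      simp only [Set.Finite.mem_toFinset, Set.mem_ofPred_eq]
      omega
    obtain ⟨z, hz⟩ := hcon _ hu
    have h1 := hmemA g hg (ρ g' z)
    have h2 := hmemA g' hg' (ρ g' z)
    rw [e, h2] at h1
    have e1 : (ρ g')⁻¹ (ρ g' z) = z := by simp
    have e2 : (ρ g)⁻¹ (ρ g' z) = ρ (g⁻¹ * g') z := by simp
    rw [e1, e2] at h1
    tauto
  set τ : ℝ := Real.exp (-lam) with hτ
  have hτ0 : 0 < τ := Real.exp_pos _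
  -- upper bound
  have up : (walk lt n).E (fun g => τ ^ (A g).card) ≤ (7 / 8) ^ n * (1 + τ) ^ Z.card := by
    have a1 : (walk lt n).E (fun g => τ ^ (A g).card) =
        (walk lt n).E (fun g => ∑ h ∈ Bl, ind (g = h) * τ ^ (A h).card) := by
      refine E_congr_of (All_walk (R := 1) (fun k => (norm_lt k).le) n) fun g hg => ?_
      rw [sum_eq_single g]
      · rw [ind_of rfl, one_mul]
      · intro h _ hne
        rw [ind_of_not (Ne.symm hne), zero_mul]
      · intro h
        exact absurd ((hBl' g).2 (by simpa using hg)) h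
    rw [a1, E_sum]
    have a2 : ∑ h ∈ Bl, (walk lt n).E (fun g => ind (g = h) * τ ^ (A h).card) ≤
        ∑ h ∈ Bl, (7 / 8) ^ n * τ ^ (A h).card := by
      refine sum_le_sum fun h _ => ?_
      rw [E_mul_right]
      exact mul_le_mul_of_nonneg_right (walk_point_le n h) (by positivity)
    refine a2.trans ?_
    rw [← mul_sum]
    refine mul_le_mul_of_nonneg_left ?_ (by positivity)
    rw [← sum_image (f := fun S : Finset ℤ => τ ^ S.card) hinj, add_comm 1 τ,
      ← Finset.sum_pow_mul_eq_add_pow]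
    simp only [one_pow, mul_one]
    refine sum_le_sum_of_subset_of_nonneg ?_ fun S _ _ => by positivity
    intro S hS
    obtain ⟨g, -, rfl⟩ := mem_image.1 hS
    exact mem_powerset.2 (filter_subset _ _)
  -- mean size
  have mean : (walk lt n).E (fun g => ((A g).card : ℝ)) ≤ C * m := by
    have a1 := walk_sq_le ρ (trapF p q m) n (c := 2 * (m + 2 * D + 1) * D ^ 2) fun k =>
      trap_step hpq m D fun z => by
        have := hρ (lt k)⁻¹ z
        rwa [map_inv, FreeGroup.norm_inv_eq, norm_lt, Nat.cast_one, mul_one] at this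
    have a2 := (walk lt n).E_mono (φ := fun g => ((A g).card : ℝ)) (ψ := fun g =>
      B (T (ρ g) (trapF p q m) - trapF p q m) (T (ρ g) (trapF p q m) - trapF p q m) * (1 / m ^ 2)
        + 4 * m) fun g => by
      rw [mul_one_div]
      exact trap_card hpq hm0 (ρ g) (A g) fun z hz => (mem_filter.1 hz).2
    rw [E_add, E_const, E_mul_right, mul_one_div] at a2
    have hm' : (0 : ℝ) < m ^ 2 := by positivity
    have a3 : (walk lt n).E (fun g => B (T (ρ g) (trapF p q m) - trapF p q m)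
        (T (ρ g) (trapF p q m) - trapF p q m)) / m ^ 2 ≤ 2 * (m + 2 * D + 1) * D ^ 2 := by
      rw [div_le_iff₀ hm']
      rw [hn] at a1
      push_cast at a1
      linarith
    have a4 : (m + 2 * D + 1 : ℝ) ≤ (2 * D + 2) * m := by
      have : (0 : ℝ) ≤ D := Nat.cast_nonneg D
      nlinarith
    have a5 : 2 * (m + 2 * D + 1 : ℝ) * D ^ 2 ≤ 2 * ((2 * D + 2) * m) * D ^ 2 := by gcongr
    rw [hC]
    linarith
  -- lower bound
  have low : Real.exp (-(lam * (C * m))) ≤ (walk lt n).E (fun g => τ ^ (A g).card) := by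
    set c := C * m
    have a1 := (walk lt n).E_mono (ψ := fun g => τ ^ (A g).card) (φ := fun g =>
      Real.exp (-(lam * c)) * ((1 + lam * c) - lam * ((A g).card : ℝ))) fun g => by
      rw [hτ, ← Real.exp_nat_mul]
      have b1 := Real.add_one_le_exp (lam * c - lam * (A g).card)
      have b2 : Real.exp ((A g).card * -lam) =
          Real.exp (-(lam * c)) * Real.exp (lam * c - lam * (A g).card) := by
        rw [← Real.exp_add]; congr 1; ring
      rw [b2]
      exact mul_le_mul_of_nonneg_left (by linarith) (Real.exp_pos _).le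
    rw [E_mul_left, E_sub, E_const, E_mul_left] at a1
    have a2 : 1 ≤ (1 + lam * c) - lam * (walk lt n).E (fun g => ((A g).card : ℝ)) := by nlinarith
    have a3 := Real.exp_pos (-(lam * c))
    nlinarith
  have hZc : (Z.card : ℝ) ≤ 4 * D * n + 2 := by
    have h3 := card_union_le (Icc (p - D * n) (p + D * n)) (Icc (q - D * n) (q + D * n))
    rw [Int.card_Icc, Int.card_Icc] at h3
    have h4 : ((D * n : ℕ) : ℤ) = D * n := by push_cast; ring
    have : Z.card ≤ 4 * (D * n) + 2 := by rw [hZ]; omega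
    have h5 : (Z.card : ℝ) ≤ 4 * (D * n) + 2 := by exact_mod_cast this
    linarith
  have hτ1 : τ * lam ≤ 1 := by
    have b1 := Real.add_one_le_exp lam
    have b2 : τ * Real.exp lam = 1 := by rw [hτ, ← Real.exp_add]; simp
    nlinarith
  have fin1 : ((7 : ℝ) / 8) ^ n ≤ Real.exp (n * (-1 / 8)) := by
    rw [Real.exp_nat_mul]
    refine pow_le_pow_left₀ (by norm_num) ?_ n
    have := Real.add_one_le_exp (-1 / 8 : ℝ)
    linarith
  have fin2 : (1 + τ) ^ Z.card ≤ Real.exp (Z.card * τ) := by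
    rw [Real.exp_nat_mul]
    refine pow_le_pow_left₀ (by positivity) ?_ _
    have := Real.add_one_le_exp τ
    linarith
  have fin3 : Real.exp (-(lam * (C * m))) ≤ Real.exp (n * (-1 / 8) + Z.card * τ) := by
    rw [Real.exp_add]
    exact low.trans (up.trans (mul_le_mul fin1 fin2 (by positivity) (Real.exp_pos _).le))
  rw [Real.exp_le_exp] at fin3
  have hnm : (n : ℝ) = m ^ 2 := by rw [hn]; push_cast; ring
  have hD : (0 : ℝ) ≤ D := Nat.cast_nonneg D
  have b1 : τ * D ≤ 1 / 64 := by rw [hlam] at hτ1; nlinarith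
  have b2 : τ ≤ 1 / 64 := by rw [hlam] at hτ1; nlinarith
  have b3 : Z.card * τ ≤ (4 * D * n + 2) * τ := by gcongr
  have b4 : (4 * D * n + 2) * τ ≤ n / 16 + 1 / 32 := by
    have : (0 : ℝ) ≤ n := Nat.cast_nonneg n
    nlinarith
  rw [hnm] at fin3 b3 b4
  nlinarith

end Pool.Agent.P.MP_13a6c0_al
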