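import Pool.Agent.P.MP_13a6c0_al.Form

/-! A universal Reiter type lemma for bounded displacement actions on the integers. -/

namespace Pool.Agent.P.MP_13a6c0_al

open Finset Rv

lemma Rv.E_congr_of {μ : Rv} {P : FG → Prop} (hP : μ.All P) {φ ψ : FG → ℝ}
    (h : ∀ g, P g → φ g = ψ g) : μ.E φ = μ.E ψ :=
  le_antisymm (E_mono_of hP fun g hg => (h g hg).le) (E_mono_of hP fun g hg => (h g hg).ge)

lemma step_diff {κ : Type} [Fintype κ] [Nonempty κ] {D R : ℕ} {ρ : FG →* Equiv.Perm ℤ}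
    (hρ : Bd D ρ) {s : κ → FG} (hs : ∀ k, (s k).norm ≤ R) (z : ℤ) (k l : κ) (hl : s l = 1)
    (Q : ℤ → Prop) (n : ℕ) {c : ℝ} (hc : 0 < c) :
    (walk s n).E (fun g => ind (Q (ρ (s k * g) z))) - (walk s n).E (fun g => ind (Q (ρ g z))) ≤
      (c * (2 * (Fintype.card κ : ℝ) ^ 2 *
        (B ((Pw ρ s ^ n) (Finsupp.single z 1)) ((Pw ρ s ^ n) (Finsupp.single z 1)) -
          B ((Pw ρ s ^ (n + 1)) (Finsupp.single z 1)) ((Pw ρ s ^ (n + 1)) (Finsupp.single z 1))))
        + (2 * D * R + 1) * (n + 1) / c) / 2 := by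
  classical
  set r : ℕ := D * (R * (n + 1)) with hr
  set I : Finset ℤ := Icc (z - r) (z + r) with hI
  set q : V := Finsupp.onFinset I (fun y => if y ∈ I then ind (Q y) else 0)
    (fun y hy => by by_contra h; simp [h] at hy) with hq
  have hq1 : ∀ y ∈ I, q y = ind (Q y) := fun y hy => by simp [hq, hy]
  have hmem : ∀ g : FG, g.norm ≤ R * (n + 1) → ρ g z ∈ I := by
    intro g hg
    have h1 := hρ g z
    have h2 : (D : ℤ) * g.norm ≤ r := by
      rw [hr]
      exact_mod_cast Nat.mul_le_mul_left D hg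
    rw [abs_le] at h1
    rw [hI, mem_Icc]
    constructor <;> linarith [h1.1, h1.2]
  set δ : V := Finsupp.single z 1
  have e1 : (walk s n).E (fun g => ind (Q (ρ (s k * g) z))) =
      B (T (ρ (s k)) ((Pw ρ s ^ n) δ)) q := by
    have := E_walk_lin ρ s δ n ((B.flip q).comp (T (ρ (s k))))
    simp only [LinearMap.comp_apply, LinearMap.flip_apply] at this
    rw [← this]
    refine E_congr_of (All_walk hs n) fun g hg => ?_
    rw [← T_mul, ← map_mul, T_single, B_single, one_mul, hq1]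
    apply hmem
    have := FreeGroup.norm_mul_le (s k) g
    have := hs k
    rw [Nat.mul_succ]
    omega
  have e2 : (walk s n).E (fun g => ind (Q (ρ g z))) = B (T (ρ (s l)) ((Pw ρ s ^ n) δ)) q := by
    have := E_walk_lin ρ s δ n (B.flip q)
    simp only [LinearMap.flip_apply] at this
    rw [hl, map_one, T_one, ← this]
    refine E_congr_of (All_walk hs n) fun g hg => ?_
    rw [T_single, B_single, one_mul, hq1]
    apply hmem
    rw [Nat.mul_succ]
    omega
  have e3 : B q q ≤ (2 * D * R + 1) * (n + 1) := by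
    rw [B_eq_sum (s := I) Finsupp.support_onFinset_subset]
    have h1 : ∑ y ∈ I, q y * q y ≤ ∑ _y ∈ I, (1 : ℝ) := by
      refine sum_le_sum fun y hy => ?_
      rw [hq1 y hy]
      have := ind_nonneg (Q y)
      have := ind_le_one (Q y)
      nlinarith
    have h2 : (I.card : ℝ) = 2 * r + 1 := by
      have : (I.card : ℤ) = 2 * r + 1 := by
        rw [hI, Int.card_Icc_of_le _ _ (by omega)]
        ring
      exact_mod_cast this
    rw [sum_const, nsmul_eq_mul, mul_one, h2, hr] at h1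
    push_cast at h1
    have : (0 : ℝ) ≤ n := Nat.cast_nonneg n
    nlinarith
  rw [e1, e2, ← LinearMap.sub_apply, ← map_sub]
  refine (B_le _ _ hc).trans ?_
  have h4 := B_step_le ρ s ((Pw ρ s ^ n) δ) k l
  rw [pow_succ' (Pw ρ s), Module.End.mul_apply]
  have h5 := mul_le_mul_of_nonneg_left h4 hc.le
  have h6 : B q q / c ≤ (2 * D * R + 1) * (n + 1) / c := by gcongr
  linarith

theorem reiter {κ : Type} [Fintype κ] (h : κ → FG) (D : ℕ) {η : ℝ} (hη : 0 < η) :
    ∃ μ : Rv, ∀ ρ : FG →* Equiv.Perm ℤ, Bd D ρ → ∀ (z : ℤ) (k : κ) (Q : ℤ → Prop),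
      μ.E (fun g => ind (Q (ρ (h k * g) z))) ≤ μ.E (fun g => ind (Q (ρ g z))) + η := by
  set s : Option κ → FG := fun o => o.elim 1 h with hs
  obtain ⟨R, hR⟩ : ∃ R : ℕ, ∀ k, (s k).norm ≤ R :=
    ⟨univ.sup fun i => (s i).norm, fun i => le_sup (f := fun i => (s i).norm) (mem_univ i)⟩
  set M : ℝ := (Fintype.card (Option κ) : ℝ) with hM
  set C : ℝ := 2 * D * R + 1 with hC
  have hC0 : 0 < C := by positivity
  set Λ : ℝ := C / η with hΛ
  have hΛ0 : 0 < Λ := by positivity
  obtain ⟨N, hN⟩ := (Real.tendsto_sum_range_one_div_nat_succ_atTop.eventually_ge_atTop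
    (2 * Λ * M ^ 2 / η + 1)).exists
  set H : ℝ := ∑ i ∈ range N, (1 / (i + 1) : ℝ) with hH
  have hH0 : 0 < H := lt_of_lt_of_le (by positivity) hN
  set w : Fin N → ℝ := fun n => 1 / (((n : ℕ) + 1) * H) with hw
  have hw0 : ∀ n, 0 ≤ w n := fun n => by positivity
  have hw1 : ∑ n, w n = 1 := by
    have : ∑ n : Fin N, w n = (∑ i ∈ range N, (1 / (i + 1) : ℝ)) / H := by
      rw [sum_div, ← Fin.sum_univ_eq_sum_range (fun i => (1 / (i + 1) : ℝ) / H)]
      refine sum_congr rfl fun n _ => ?_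
      simp only [hw]
      field_simp
    rw [this, ← hH, div_self hH0.ne']
  refine ⟨mix w hw0 hw1 fun n => walk s n, fun ρ hρ z k Q => ?_⟩
  rw [E_mix, E_mix, ← sub_le_iff_le_add', ← sum_sub_distrib]
  set a : ℕ → ℝ := fun n =>
    B ((Pw ρ s ^ n) (Finsupp.single z 1)) ((Pw ρ s ^ n) (Finsupp.single z 1)) with ha
  have key : ∀ n : Fin N, w n * (walk s n).E (fun g => ind (Q (ρ (h k * g) z))) -
      w n * (walk s n).E (fun g => ind (Q (ρ g z))) ≤
        Λ * M ^ 2 / H * (a n - a (n + 1)) + η / 2 * w n := by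
    intro n
    have h1 := step_diff hρ hR z (some k) none rfl Q n (c := ((n : ℕ) + 1) * Λ) (by positivity)
    have h2 := mul_le_mul_of_nonneg_left h1 (hw0 n)
    rw [mul_sub] at h2
    refine le_trans h2 (le_of_eq ?_)
    simp only [hw, ha, ← hC, hΛ, ← hM]
    field_simp
  refine (sum_le_sum fun n _ => key n).trans ?_
  rw [sum_add_distrib, ← mul_sum, ← mul_sum, hw1,
    Fin.sum_univ_eq_sum_range (fun n => a n - a (n + 1)), sum_range_sub']
  have a0 : a 0 = 1 := by simp [ha, B_single]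
  have aN : 0 ≤ a N := B_nonneg _
  have h3 : Λ * M ^ 2 / H ≤ η / 2 := by
    rw [div_le_iff₀ hH0]
    have : 2 * Λ * M ^ 2 / η ≤ H := by linarith
    rw [div_le_iff₀ hη] at this
    linarith
  have h4 : 0 ≤ Λ * M ^ 2 / H := by positivity
  nlinarith

end Pool.Agent.P.MP_13a6c0_al
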