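import Mathlib

/-! Chains of mirror centres in a binary sequence have density zero. -/

namespace Pool.Agent.P.MP_13a6c0_al

open Finset
open scoped Classical

/-- Above a centre `c` the sequence is the mirror image of what is below `c`, up to the next
centre, where `false` is replaced by `true` (as long as the mirror image stays above `lo`). -/
def Ch (X : ℤ → Bool) (G : Set ℤ) (lo hi : ℤ) : Prop :=
  ∀ c ∈ G, ∀ x, c < x → x ≤ hi → (∀ y ∈ G, c < y → x ≤ y) → lo ≤ 2 * c - x →
    (x ∉ G → X x = X (2 * c - x)) ∧ (x ∈ G → X x = true ∧ X (2 * c - x) = false)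

/-- The number of points of `[a, b)` with property `P`. -/
noncomputable def cnt (P : ℤ → Prop) (a b : ℤ) : ℤ := ((Ico a b).filter P).card

/-- Points at distance at least `l` from `G`. -/
def Far (G : Set ℤ) (l : ℕ) (x : ℤ) : Prop := ∀ y ∈ G, y + l ≤ x ∨ x + l ≤ y

variable {X : ℤ → Bool} {G : Set ℤ} {lo hi : ℤ} {P : ℤ → Prop} {l : ℕ}

theorem Ch.mono (h : Ch X G lo hi) {lo' hi' : ℤ} (h1 : lo ≤ lo') (h2 : hi' ≤ hi) :
    Ch X G lo' hi' := fun c hc x a1 a2 a3 a4 => h c hc x a1 (a2.trans h2) a3 (h1.trans a4)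

theorem cnt_nonneg (P : ℤ → Prop) (a b : ℤ) : 0 ≤ cnt P a b := Int.natCast_nonneg _

theorem cnt_add (P : ℤ → Prop) {a b c : ℤ} (h1 : a ≤ b) (h2 : b ≤ c) :
    cnt P a c = cnt P a b + cnt P b c := by
  rw [cnt, cnt, cnt, ← Ico_union_Ico_eq_Ico h1 h2, filter_union, card_union_of_disjoint
    (disjoint_filter_filter (Ico_disjoint_Ico_consecutive a b c))]
  push_cast
  rfl

theorem cnt_mono (P : ℤ → Prop) {a b c : ℤ} (h1 : a ≤ b) (h2 : b ≤ c) :
    cnt P a b ≤ cnt P a c := by
  have := cnt_nonneg P b c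
  rw [cnt_add P h1 h2]
  omega

theorem cnt_le (P : ℤ → Prop) {a b : ℤ} (h : a ≤ b) : cnt P a b ≤ b - a := by
  have := card_filter_le (Ico a b) P
  rw [Int.card_Ico] at this
  unfold cnt
  omega

theorem cnt_eq_zero {a b : ℤ} (h : ∀ x, a ≤ x → x < b → ¬ P x) : cnt P a b = 0 := by
  rw [cnt, filter_eq_empty_iff.2 fun x hx => h x (mem_Ico.1 hx).1 (mem_Ico.1 hx).2]
  rfl

theorem cnt_gap {a c z : ℤ} (h1 : a ≤ c) (h2 : c ≤ z) (h : ∀ y ∈ G, c < y → z ≤ y) :
    cnt (Far G l) a c + (z - c) - 2 * l ≤ cnt (Far G l) a z := by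
  have : Ico (c + l) (z - l) ⊆ (Ico c z).filter (Far G l) := fun x hx => by
    rw [mem_Ico] at hx
    refine mem_filter.2 ⟨mem_Ico.2 ⟨by omega, by omega⟩, fun y hy => ?_⟩
    have := h y hy
    omega
  have := card_le_card this
  rw [Int.card_Ico] at this
  rw [cnt_add _ h1 h2]
  unfold cnt
  omega

theorem exists_prev (G : Set ℤ) {lo y : ℤ} (h : lo ≤ y) :
    ∃ c, c < y ∧ (∀ y' ∈ G, c < y' → y ≤ y') ∧ ((c ∈ G ∧ lo ≤ c) ∨ c = lo - 1) := by
  obtain ⟨c, ⟨a1, a2⟩, a3⟩ := Int.exists_greatest_of_bdd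
    (P := fun c => c < y ∧ ((c ∈ G ∧ lo ≤ c) ∨ c = lo - 1)) ⟨y, fun _ h => h.1.le⟩
    ⟨lo - 1, by omega, Or.inr rfl⟩
  refine ⟨c, a1, fun y' b1 b2 => ?_, a2⟩
  by_contra b3
  have := a3 y' ⟨by omega, Or.inl ⟨b1, by omega⟩⟩
  omega

/-- The window read upwards from `p`. -/
def up (X : ℤ → Bool) (L : ℕ) (p : ℤ) : Lex (Fin L → Bool) := toLex fun j => X (p + j)

/-- The window with lowest point `p`, read downwards. -/
def dn (X : ℤ → Bool) (L : ℕ) (p : ℤ) : Lex (Fin L → Bool) := toLex fun j => X (p + L - 1 - j)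

variable {L : ℕ} {m : Lex (Fin L → Bool)}

theorem far_of_start (h : Ch X G lo hi) (hm : ∀ p, lo ≤ p → p + L ≤ hi + 1 → m ≤ dn X L p)
    {p y : ℤ} (h1 : lo ≤ p) (hy : y ∈ G) (h2 : p ≤ y) (h3 : y ≤ hi) (h4 : y < p + L)
    (h5 : ∀ j : Fin L, p + j ≤ y → X (p + j) = ofLex m j) :
    p - lo - (L + 4 * l) ≤ 2 * cnt (Far G l) lo y := by
  obtain ⟨y₀, ⟨a1, a2⟩, a3⟩ := Int.exists_least_of_bdd (P := fun y => y ∈ G ∧ p ≤ y)
    ⟨p, fun _ h => h.2⟩ ⟨y, hy, h2⟩
  have a4 := a3 y ⟨hy, h2⟩
  have a5 := cnt_mono (Far G l) (h1.trans a2) a4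
  obtain ⟨c, b1, b2, ⟨b3, b4⟩ | b3⟩ := exists_prev G (h1.trans a2)
  · have b5 : c < p := by
      by_contra b5
      have := a3 c ⟨b3, by omega⟩
      omega
    have b6 := cnt_gap (l := l) b4 b1.le b2
    have b7 := cnt_nonneg (Far G l) lo c
    by_contra b8
    refine (hm (2 * c - p - L + 1) (by omega) (by omega)).not_gt
      ⟨⟨(y₀ - p).toNat, by omega⟩, fun j hj => ?_, ?_⟩
    · have hj' : (j : ℕ) < (y₀ - p).toNat := hj
      have := (h c b3 (p + j) (by omega) (by omega) (fun y' c1 c2 => by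
        have := b2 y' c1 c2
        omega) (by omega)).1 fun c1 => by
          have := a3 _ ⟨c1, by omega⟩
          omega
      rw [← show ofLex m j = m j from rfl, ← h5 j (by omega), this]
      exact congrArg X (by ring)
    · obtain ⟨c1, c2⟩ := (h c b3 y₀ b1 (by omega) b2 (by omega)).2 a1
      have c3 := h5 ⟨(y₀ - p).toNat, by omega⟩ (by simp only; omega)
      have c4 : p + ((y₀ - p).toNat : ℕ) = y₀ := by omega
      simp only [c4, c1] at c3
      have c5 : 2 * c - p - L + 1 + L - 1 - ((y₀ - p).toNat : ℕ) = 2 * c - y₀ := by omega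
      change X (2 * c - p - L + 1 + L - 1 - ((y₀ - p).toNat : ℕ)) < ofLex m _
      rw [c5, c2, ← c3]
      exact Bool.false_lt_true
  · have b6 := cnt_gap (l := l) le_rfl (h1.trans a2) fun y' c1 c2 => b2 y' c1 (by omega)
    have b7 := cnt_nonneg (Far G l) lo lo
    omega

theorem far_of_occ (hL : L = 4 * l + 1) (h : Ch X G lo hi)
    (hm : ∀ p, lo ≤ p → p + L ≤ hi + 1 → m ≤ dn X L p) (k : ℕ) :
    ∀ p, p - lo ≤ k → lo ≤ p → p + L ≤ hi + 1 → (up X L p = m ∨ dn X L p = m) →
      p - lo - 4 * L ≤ 2 * cnt (Far G l) lo (p + L - 1) := by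
  induction k with
  | zero =>
    intro p h0 h1 h2 _
    have := cnt_nonneg (Far G l) lo (p + L - 1)
    omega
  | succ k ih =>
    intro p h0 h1 h2 h3
    obtain ⟨c, b1, b2, ⟨b3, b4⟩ | b3⟩ := exists_prev G (show lo ≤ p + L by omega)
    · have mir : ∀ x, c < x → x < p + L → lo ≤ 2 * c - x → X x = X (2 * c - x) :=
        fun x c1 c2 c3 => (h c b3 x c1 (by omega) (fun y' d1 d2 => by
          have := b2 y' d1 d2
          omega) c3).1 fun d1 => by
            have := b2 x d1 c1
            omega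
      have b6 := cnt_gap (l := l) (z := p + L - 1) b4 (by omega) fun y' c1 c2 => by
        have := b2 y' c1 c2
        omega
      have b7 := cnt_nonneg (Far G l) lo c
      have b8 := cnt_mono (Far G l) b4 (show c ≤ p + L - 1 by omega)
      rcases le_or_gt p c with b5 | b5
      · rcases h3 with h3 | h3
        · have := far_of_start (l := l) h hm h1 b3 b5 (by omega) b1 fun j _ => by rw [← h3]; rfl
          omega
        rcases lt_or_ge (2 * c - (p + L - 1)) lo with c1 | c1
        · omega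
        have := far_of_start (l := l) h hm c1 b3 (by omega) (by omega) (by omega) fun j hj => by
          rw [← h3]
          change _ = X (p + L - 1 - j)
          rcases hj.eq_or_lt with hj | hj
          · exact congrArg X (by omega)
          · rw [mir (p + L - 1 - j) (by omega) (by omega) (by omega)]
            exact congrArg X (by ring)
        omega
      rcases lt_or_ge (2 * c - (p + L - 1)) lo with c1 | c1
      · omega
      have e1 : up X L (2 * c - (p + L - 1)) = dn X L p := congrArg toLex (funext fun j => by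
        have := j.2
        rw [mir (p + L - 1 - j) (by omega) (by omega) (by omega)]
        exact congrArg X (by ring))
      have e2 : dn X L (2 * c - (p + L - 1)) = up X L p := congrArg toLex (funext fun j => by
        have := j.2
        rw [mir (p + j) (by omega) (by omega) (by omega)]
        exact congrArg X (by ring))
      have := ih (2 * c - (p + L - 1)) (by omega) c1 (by omega) (by rw [e1, e2]; exact h3.symm)
      have := cnt_mono (Far G l) (show lo ≤ 2 * c - (p + L - 1) + L - 1 by omega)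
        (show _ ≤ c by omega)
      omega
    · have b6 := cnt_gap (l := l) (z := p + L - 1) le_rfl (show lo ≤ _ by omega)
        fun y' c1 c2 => by
          have := b2 y' c1 (by omega)
          omega
      have b7 := cnt_nonneg (Far G l) lo lo
      omega

theorem far_half_aux (hL : L = 4 * l + 1) (S : Finset (Lex (Fin L → Bool))) :
    ∀ lo, Ch X G lo hi → (∀ p, lo ≤ p → p + L ≤ hi + 1 → up X L p ∈ S ∧ dn X L p ∈ S) →
      hi - lo - 5 * L * (S.card + 1) ≤ 2 * cnt (Far G l) lo hi := by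
  induction S using Finset.induction_on_min with
  | empty =>
    intro lo _ h
    have := cnt_nonneg (Far G l) lo hi
    have h1 : ¬ lo + L ≤ hi + 1 := fun h1 => by simpa using (h lo le_rfl h1).1
    simp only [card_empty]
    omega
  | insert m S hmS ih =>
    intro lo h hS
    have hc : (((insert m S).card : ℕ) : ℤ) = S.card + 1 := by
      rw [card_insert_of_notMem fun h => lt_irrefl _ (hmS m h)]
      rfl
    rw [hc, mul_add _ _ (1 : ℤ)]
    by_cases ho : ∃ p, lo ≤ p ∧ p + L ≤ hi + 1 ∧ (up X L p = m ∨ dn X L p = m)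
    · obtain ⟨p, ⟨a1, a2, a3⟩, a4⟩ := Int.exists_greatest_of_bdd ⟨hi + 1, fun z hz => by
        have := hz.2.1
        omega⟩ ho
      have b1 := far_of_occ hL h (fun p c1 c2 => by
        rcases mem_insert.1 (hS p c1 c2).2 with e | e
        · exact e.ge
        · exact (hmS _ e).le) (p - lo).toNat p (by omega) a1 a2 a3
      have b2 := ih (p + L) (h.mono (by omega) le_rfl) fun q c1 c2 => by
        obtain ⟨d1, d2⟩ := hS q (by omega) c2
        refine ⟨(mem_insert.1 d1).resolve_left fun e => ?_,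
          (mem_insert.1 d2).resolve_left fun e => ?_⟩
        · have := a4 q ⟨by omega, c2, Or.inl e⟩
          omega
        · have := a4 q ⟨by omega, c2, Or.inr e⟩
          omega
      have b3 := cnt_add (Far G l) (show lo ≤ p + L - 1 by omega) (show _ ≤ hi by omega)
      have b4 : cnt (Far G l) (p + L) hi ≤ cnt (Far G l) (p + L - 1) hi :=
        Int.ofNat_le.2 (card_le_card (filter_subset_filter _ (Ico_subset_Ico_left (by omega))))
      omega
    · have := ih lo h fun q c1 c2 => by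
        obtain ⟨d1, d2⟩ := hS q c1 c2
        exact ⟨(mem_insert.1 d1).resolve_left fun e => ho ⟨q, c1, c2, Or.inl e⟩,
          (mem_insert.1 d2).resolve_left fun e => ho ⟨q, c1, c2, Or.inr e⟩⟩
      omega

theorem far_half (l : ℕ) : ∃ C : ℝ, ∀ X G lo hi, Ch X G lo hi →
    (hi : ℝ) - lo - C ≤ 2 * cnt (Far G l) lo hi := by
  obtain ⟨C, hC⟩ : ∃ C : ℤ, ∀ X G lo hi, Ch X G lo hi →
      hi - lo - C ≤ 2 * cnt (Far G l) lo hi :=
    ⟨_, fun _ _ lo _ h => far_half_aux rfl univ lo h fun _ _ _ => ⟨mem_univ _, mem_univ _⟩⟩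
  exact ⟨C, fun X G lo hi h => by exact_mod_cast hC X G lo hi h⟩

/-- Chains have upper density at most `κ`. -/
def Dens (κ : ℝ) : Prop := ∃ C : ℝ, ∀ X G lo hi, lo ≤ hi → Ch X G lo hi →
  (cnt (· ∈ G) lo hi : ℝ) ≤ κ * (hi - lo) + C

theorem Dens.step {κ : ℝ} (hκ : 0 < κ) (h : Dens κ) : Dens (3 / 4 * κ) := by
  obtain ⟨C, hC⟩ := h
  obtain ⟨l, hl⟩ := exists_nat_gt (max 0 (2 * C / κ))
  have l0 : (0 : ℝ) < l := (le_max_left _ _).trans_lt hl
  have l0' : 0 < l := by exact_mod_cast l0
  have l1 : C ≤ κ * l / 2 := by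
    have := (div_lt_iff₀ hκ).1 ((le_max_right _ _).trans_lt hl)
    linarith
  obtain ⟨C', hC'⟩ := far_half l
  refine ⟨3 / 4 * κ * C' + l, fun X G lo hi h1 h2 => ?_⟩
  have key : ∀ j : ℕ, lo + j * l ≤ hi → (cnt (· ∈ G) lo (lo + j * l) : ℝ) +
      3 / 2 * κ * cnt (Far G l) lo (lo + j * l) ≤ 3 / 2 * κ * (j * l) := by
    intro j
    induction j with
    | zero => simp [cnt]
    | succ j ih =>
      intro hj
      have e : lo + ((j + 1 : ℕ) : ℤ) * l = lo + j * l + l := by push_cast; ring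
      rw [e] at hj ⊢
      have p1 : lo ≤ lo + j * l := le_add_of_nonneg_right (by positivity)
      have p2 : lo + j * l ≤ lo + j * l + l := le_add_of_nonneg_right (by positivity)
      have := ih (p2.trans hj)
      rw [cnt_add _ p1 p2, cnt_add _ p1 p2]
      generalize lo + j * l = a at *
      push_cast
      by_cases hb : ∃ y ∈ G, a ≤ y ∧ y < a + l
      · obtain ⟨y, y1, y2, y3⟩ := hb
        have q1 := hC X G a (a + l) p2 (h2.mono p1 hj)
        rw [cnt_eq_zero (P := Far G l) (a := a) fun x x1 x2 x3 => by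
          have := x3 y y1
          omega]
        push_cast at q1 ⊢
        linarith
      · have q1 : (cnt (Far G l) a (a + l) : ℝ) ≤ l := by
          have := cnt_le (Far G l) p2
          exact_mod_cast (by omega : cnt (Far G l) a (a + l) ≤ l)
        rw [cnt_eq_zero (P := (· ∈ G)) (a := a) fun x x1 x2 x3 => hb ⟨x, x3, x1, x2⟩]
        push_cast
        nlinarith
  obtain ⟨j, j1, j2⟩ : ∃ j : ℕ, lo + j * l ≤ hi ∧ hi < lo + j * l + l := by
    refine ⟨(hi - lo).toNat / l, ?_⟩
    have a1 := Nat.div_add_mod (hi - lo).toNat l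
    have a2 := Nat.mod_lt (hi - lo).toNat l0'
    rw [← Nat.cast_mul, mul_comm _ l]
    omega
  have p1 : lo ≤ lo + j * l := le_add_of_nonneg_right (by positivity)
  have q1 := key j j1
  have q2 := hC' X G lo _ (h2.mono le_rfl j1)
  have q3 : (cnt (· ∈ G) (lo + j * l) hi : ℝ) ≤ l := by
    have := cnt_le (· ∈ G) j1
    exact_mod_cast (by omega : cnt (· ∈ G) (lo + j * l) hi ≤ l)
  have q4 : (lo : ℝ) + j * l ≤ hi := by exact_mod_cast j1
  rw [cnt_add _ p1 j1]
  push_cast at q2 ⊢
  nlinarith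

theorem dens {ε : ℝ} (hε : 0 < ε) : Dens ε := by
  have key : ∀ k : ℕ, Dens ((3 / 4) ^ k) := by
    intro k
    induction k with
    | zero => exact ⟨0, fun X G lo hi h _ => by simpa using (by exact_mod_cast cnt_le _ h)⟩
    | succ k ih => rw [pow_succ']; exact ih.step (by positivity)
  obtain ⟨k, hk⟩ := exists_pow_lt_of_lt_one hε (by norm_num : (3 / 4 : ℝ) < 1)
  obtain ⟨C, hC⟩ := key k
  refine ⟨C, fun X G lo hi h1 h2 => (hC X G lo hi h1 h2).trans ?_⟩
  have : (0 : ℝ) ≤ hi - lo := by exact_mod_cast sub_nonneg.2 h1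
  nlinarith

end Pool.Agent.P.MP_13a6c0_al
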