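import Pool.Agent.P.MP_13a6c0_al.ZWalk

/-! A zero entropy subshift whose group of local shifts contains a free group. -/

namespace Pool.Agent.P.MP_13a6c0_al

open Filter Topology
open scoped Classical

/-- The letter of a gate label. -/
def lab (β : Bool) : Fin 3 := if β then 2 else 1

/-- The gate labels at the even places, the letter `0` at the odd places. -/
def code (e : ℤ → Bool) (n : ℤ) : Fin 3 := if n % 2 = 0 then lab (e (n / 2)) else 0

/-- The words which occur in no coded environment. -/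
def Forb : Set (List (Fin 3)) := {w | ∀ e, Env e → ¬ Occurs w (code e)}

theorem lab_ne (β : Bool) : lab β ≠ 0 := by cases β <;> decide

theorem lab_inj {β β' : Bool} : lab β = lab β' ↔ β = β' := by cases β <;> cases β' <;> decide

theorem sq_mem_Forb (a : Fin 3) : [a, a] ∈ Forb := by
  rintro e - ⟨i, hi⟩
  have h : code e (i + 1) = code e i := by
    have h0 := hi ⟨0, by simp⟩
    have h1 := hi ⟨1, by simp⟩
    simp at h0 h1
    rw [h0, h1]
  unfold code at h
  split_ifs at h
  · omega
  · exact lab_ne _ h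
  · exact lab_ne _ h.symm
  · omega

theorem complexity_le (n : ℕ) : complexity (SF Forb) n ≤ 2 * (Win n).ncard := by
  have : {w : List (Fin 3) | w.length = n ∧ ∃ x ∈ SF Forb, Occurs w x} ⊆
      (fun p : Fin 2 × (Fin (n + 1) → Bool) => List.ofFn fun k : Fin n =>
        if (p.1 + k : ℕ) % 2 = 0 then lab (p.2 ⟨(p.1 + k) / 2, by omega⟩) else 0) ''
        (Set.univ ×ˢ Win n) := by
    rintro w ⟨rfl, x, hx, hw⟩
    obtain ⟨e, he, i, hi⟩ : ∃ e, Env e ∧ Occurs w (code e) := by
      by_contra h
      exact hx w (fun e h1 h2 => h ⟨e, h1, h2⟩) hw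
    refine ⟨(⟨(i % 2).toNat, by omega⟩, _), ⟨trivial, e, i / 2, he, rfl⟩, ?_⟩
    refine Eq.trans (congrArg List.ofFn (funext fun k => ?_)) (List.ofFn_get w)
    rw [← hi k, code]
    refine if_congr (by simp only; omega) (congrArg (fun z => lab (e z)) ?_) rfl
    simp only
    omega
  refine (Set.ncard_le_ncard this (Set.toFinite _)).trans
    ((Set.ncard_image_le (Set.toFinite _)).trans ?_)
  rw [Set.ncard_prod, Set.ncard_univ, Nat.card_fin]

theorem entropy_zero :
    Tendsto (fun n : ℕ => Real.log (complexity (SF Forb) n) / n) atTop (𝓝 0) := by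
  refine tendsto_order.2 ⟨fun a ha => Eventually.of_forall fun n => ha.trans_le
    (div_nonneg (Real.log_natCast_nonneg _) n.cast_nonneg), fun ε hε => ?_⟩
  obtain ⟨C, hC⟩ := ncard_Win (half_pos hε)
  filter_upwards [eventually_gt_atTop 0,
    tendsto_natCast_atTop_atTop.eventually_gt_atTop (2 * (|C| + 1) / ε)] with n h0 h1
  have p0 : (0 : ℝ) < n := by exact_mod_cast h0
  rw [div_lt_iff₀ hε] at h1
  rw [div_lt_iff₀ p0]
  have p1 := le_abs_self C
  have p2 := abs_nonneg C
  rcases (complexity (SF Forb) n).eq_zero_or_pos with h | h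
  · rw [h, Nat.cast_zero, Real.log_zero]
    positivity
  rw [Real.log_lt_iff_lt_exp (by exact_mod_cast h)]
  calc _ ≤ 2 * ((Win n).ncard : ℝ) := by exact_mod_cast complexity_le n
    _ ≤ Real.exp 1 * Real.exp (ε / 2 * n + C) :=
        mul_le_mul (by linarith [Real.add_one_le_exp 1]) (hC n) (by positivity) (by positivity)
    _ < _ := by
        rw [← Real.exp_add]
        exact Real.exp_lt_exp.2 (by linarith)

/-- The vertex of a state. -/
def vtx (s : ℤ × Bool) : ℤ := if s.2 then 2 * s.1 - 1 else 2 * s.1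

/-- The point of the subshift given by an environment and a state. -/
def pt {e : ℤ → Bool} (he : Env e) (s : ℤ × Bool) : SF Forb :=
  ⟨sh (vtx s) (code e), sh_mem_SF _ fun _ hw => hw e he⟩

/-- The local shifts. -/
noncomputable abbrev ph (a : Fin 3) : SF Forb ≃ₜ SF Forb := phi Forb sq_mem_Forb a

variable {e : ℤ → Bool} (he : Env e)

theorem sh_sh3 (j k : ℤ) (x : ℤ → Fin 3) : sh j (sh k x) = sh (j + k) x :=
  funext fun _ => congrArg x (add_assoc _ _ _)

theorem code_even (e : ℤ → Bool) {n i : ℤ} (h : n = 2 * i) : code e n = lab (e i) := by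
  rw [code, if_pos (by omega), show n / 2 = i by omega]

theorem code_odd (e : ℤ → Bool) {n : ℤ} (h : n % 2 = 1) : code e n = 0 := if_neg (by omega)

theorem ph_zero (s : ℤ × Bool) : ph 0 (pt he s) = pt he (hop s) := by
  refine Subtype.ext ?_
  change phiFun 0 (sh (vtx s) (code e)) = sh (vtx (hop s)) (code e)
  rcases s with ⟨i, _ | _⟩
  · have h1 : sh (vtx (i, false)) (code e) 1 = 0 := code_odd e (by simp [vtx])
    rw [phiFun, if_pos h1, sh_sh3]
    exact congrArg (sh · _) (by simp [vtx, hop]; ring)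
  · have h1 : sh (vtx (i, true)) (code e) 1 = lab (e i) := code_even e (by simp [vtx])
    have h0 : sh (vtx (i, true)) (code e) 0 = 0 :=
      code_odd e (by simp only [vtx, if_true]; omega)
    rw [phiFun, h1, if_neg (lab_ne _), if_pos h0, sh_sh3]
    exact congrArg (sh · _) (by simp [vtx, hop]; ring)

theorem ph_lab (β : Bool) (s : ℤ × Bool) :
    ph (lab β) (pt he s) = pt he (cross e (· == β) s) := by
  refine Subtype.ext ?_
  change phiFun _ (sh (vtx s) (code e)) = sh (vtx (cross e _ s)) (code e)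
  rcases s with ⟨i, _ | _⟩
  · have h1 : sh (vtx (i, false)) (code e) 1 = 0 := code_odd e (by simp [vtx])
    have h0 : sh (vtx (i, false)) (code e) 0 = lab (e i) := code_even e (by simp [vtx])
    rw [phiFun, h1, h0, if_neg (lab_ne β).symm, sh_sh3, cross]
    by_cases h : e i = β
    · simp [h, vtx, sub_eq_neg_add]
    · simp [h, lab_inj]
  · have h1 : sh (vtx (i, true)) (code e) 1 = lab (e i) := code_even e (by simp [vtx])
    have h0 : sh (vtx (i, true)) (code e) 0 = 0 :=
      code_odd e (by simp only [vtx, if_true]; omega)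
    rw [phiFun, h1, h0, if_neg (lab_ne β).symm, sh_sh3, cross]
    by_cases h : e i = β
    · simp [h, vtx]
    · simp [h, lab_inj]

/-- Hop or stay. -/
def ap (p : Bool) (s : ℤ × Bool) : ℤ × Bool := if p then hop s else s

theorem ap_ap (p : Bool) (s : ℤ × Bool) : ap p (ap p s) = s := by cases p <;> simp [ap, hop_hop]

theorem ap_not (p : Bool) (s : ℤ × Bool) : ap (!p) s = ap p (hop s) := by
  cases p <;> simp [ap, hop_hop]

theorem ap_hop (p : Bool) (s : ℤ × Bool) : ap p (hop (ap p s)) = hop s := by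
  cases p <;> simp [ap, hop_hop]

/-- A gate involution or its conjugate. -/
noncomputable def BB (p β : Bool) : SF Forb ≃ₜ SF Forb :=
  if p then ph 0 * ph (lab β) * ph 0 else ph (lab β)

theorem ph_inv (a : Fin 3) : (ph a)⁻¹ = ph a := Homeomorph.ext fun _ => rfl

theorem BB_inv (p β : Bool) : (BB p β)⁻¹ = BB p β := by
  cases p <;> simp [BB, ph_inv, mul_assoc]

theorem BB_pt (p β : Bool) (s : ℤ × Bool) :
    BB p β (pt he s) = pt he (ap p (cross e (· == β) (ap p s))) := by
  cases p <;> simp [BB, ap, ph_zero, ph_lab]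

theorem BB_mem (p β : Bool) : BB p β ∈ GF Forb sq_mem_Forb := by
  have h : ∀ a, ph a ∈ GF Forb sq_mem_Forb := fun a => Subgroup.subset_closure ⟨a, rfl⟩
  cases p
  exacts [h _, mul_mem (mul_mem (h _) (h _)) (h _)]

/-- The embedding of the free group. -/
noncomputable def emb : FreeGroup (Fin 2) →* (SF Forb ≃ₜ SF Forb) :=
  FreeGroup.lift fun i => (BB true (i == 1) * BB false (i == 1))⁻¹

theorem emb_mem (g : FreeGroup (Fin 2)) : emb g ∈ GF Forb sq_mem_Forb :=
  FreeGroup.range_lift_le (by
    rintro _ ⟨i, rfl⟩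
    exact inv_mem (mul_mem (BB_mem _ _) (BB_mem _ _))) ⟨g, rfl⟩

theorem emb_single (x : Fin 2 × Bool) (s : ℤ × Bool) : (emb (.mk [x]))⁻¹ (pt he s) =
    pt he (ap x.2 (cross e (· == (x.1 == 1)) (hop (cross e (· == (x.1 == 1)) (ap (!x.2) s))))) := by
  have : (emb (.mk [x]))⁻¹ = BB x.2 (x.1 == 1) * BB (!x.2) (x.1 == 1) := by
    rcases x with ⟨i, _ | _⟩ <;> simp [emb, BB_inv]
  rw [this, Homeomorph.mul_apply, BB_pt, BB_pt, ap_not x.2 (cross _ _ _)]
  rw [show ∀ y, ap x.2 (ap x.2 y) = y from ap_ap _]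

theorem traj_cons (e : ℤ → Bool) (x : Bool → Bool) (u : ℕ → Bool → Bool) (s : ℤ × Bool) (n : ℕ) :
    traj e (fun t => Nat.casesOn t x u) s (n + 1) = traj e u (hop (cross e x s)) n := by
  induction n with
  | zero => rfl
  | succ n ih => rw [traj_succ, ih]; rfl

theorem emb_mk (L : List (Fin 2 × Bool)) : ∀ x, FreeGroup.IsReduced (x :: L) →
    ∃ (u : ℕ → Bool → Bool) (n : ℕ) (q : Bool), (∀ t, u t false = false → u t true = true) ∧
      ∀ (e : ℤ → Bool) (he : Env e) (s : ℤ × Bool), (emb (.mk (x :: L)))⁻¹ (pt he s) =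
        pt he (ap q (traj e u (hop (cross e (· == (x.1 == 1)) (ap (!x.2) s))) n)) := by
  have val : ∀ β : Bool, (false == β) = false → (true == β) = true := by decide
  induction L with
  | nil =>
    refine fun x _ => ⟨fun _ => (· == (x.1 == 1)), 1, !x.2, fun _ => val _, fun e he s => ?_⟩
    rw [emb_single, traj_succ, ap_not x.2 (hop _), hop_hop]
    rfl
  | cons y L ih =>
    intro x h
    obtain ⟨h1, h2⟩ := FreeGroup.isReduced_cons_cons.1 h
    obtain ⟨u, n, q, a1, a2⟩ := ih y h2
    have e0 : (emb (.mk (x :: y :: L)))⁻¹ = (emb (.mk (y :: L)))⁻¹ * (emb (.mk [x]))⁻¹ := by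
      rw [← mul_inv_rev, ← map_mul, FreeGroup.mul_mk]
      rfl
    by_cases h3 : x.2 = y.2
    · refine ⟨fun t => Nat.casesOn t (· == (x.1 == 1)) fun t => Nat.casesOn t (· == (y.1 == 1)) u,
        n + 1 + 1, q, ?_, fun e he s => ?_⟩
      · rintro (_ | _ | t)
        exacts [val _, val _, a1 t]
      · rw [e0, Homeomorph.mul_apply, emb_single, a2, traj_cons, traj_cons, ← h3,
          ap_not x.2 (ap _ _), ap_hop]
    · refine ⟨fun t => Nat.casesOn t (fun _ => true) u, n + 1, q, ?_, fun e he s => ?_⟩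
      · rintro (_ | t)
        exacts [fun _ => rfl, a1 t]
      · have h4 : (!y.2) = x.2 := by
          revert h3
          cases x.2 <;> cases y.2 <;> simp
        have h5 : ∀ s, cross e (· == (y.1 == 1)) (cross e (· == (x.1 == 1)) s) =
            cross e (fun _ => true) s := by
          have h6 : x.1 ≠ y.1 := fun h => h3 (h1 h)
          generalize x.1 = i at h6
          generalize y.1 = j at h6
          rintro ⟨k, d⟩
          fin_cases i <;> fin_cases j <;> cases hk : e k <;> simp_all [cross]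
        rw [e0, Homeomorph.mul_apply, emb_single, a2, traj_cons, h4, ap_ap, h5]

theorem vtx_eq {N : ℤ} (h1 : e N = true) (h2 : ∀ x < N, e x = false) {s s' : ℤ × Bool}
    (h : pt he s = pt he s') : vtx s = vtx s' := by
  have key : ∀ v v', sh v (code e) = sh v' (code e) → ¬ v < v' := by
    intro v v' h3 h4
    have h5 : code e (2 * N - v' + v) = code e (2 * N - v' + v') := congrFun h3 _
    rw [code_even e (sub_add_cancel _ _), h1, code, h2 _ (by omega)] at h5
    split_ifs at h5 <;> exact absurd h5 (by decide)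
  have h3 := congrArg Subtype.val h
  exact le_antisymm (not_lt.1 (key _ _ h3.symm)) (not_lt.1 (key _ _ h3))

theorem emb_injective : Function.Injective emb := by
  refine (injective_iff_map_eq_one _).2 fun g hg => ?_
  have h0 := FreeGroup.isReduced_toWord (x := g)
  rw [← FreeGroup.mk_toWord (x := g)] at hg
  rcases h : g.toWord with _ | ⟨x, L⟩
  · exact FreeGroup.toWord_eq_nil_iff.1 h
  rw [h] at h0 hg
  obtain ⟨u, n, q, a1, a2⟩ := emb_mk L x h0
  obtain ⟨e, ⟨he, b1, b2, -⟩, b3⟩ := exists_env_moves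
    (u := fun t => Nat.casesOn t (· == (x.1 == 1)) u) n.succ_pos (by
      rintro (_ | t) -
      · cases x.1 == 1 <;> simp
      · exact a1 t)
  have b4 := a2 e he (ap (!x.2) (0, true))
  rw [hg, inv_one, ap_ap, ← traj_cons] at b4
  have b5 := vtx_eq he b1 b2 b4
  revert b3 b5
  rcases traj e _ (0, true) (n + 1) with ⟨i, _ | _⟩ <;> cases q <;> cases x.2 <;>
    simp [vtx, ap, hop] <;> omega

end Pool.Agent.P.MP_13a6c0_al
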