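import Pool.Agent.P.MP_13a6c0_al.ZChain

/-! Binary sequences obtained by repeated folding have subexponentially many windows. -/

namespace Pool.Agent.P.MP_13a6c0_al

open Finset
open scoped Classical

/-- Keep `e` below `g`, put `true` at `g` and the mirror image above `g`. -/
def foldAt (g : ℤ) (e : ℤ → Bool) (x : ℤ) : Bool :=
  if x < g then e x else if x = g then true else e (2 * g - x)

/-- The sequences obtained from the constant sequence `false` by folding at entries `false`. -/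
inductive Env : (ℤ → Bool) → Prop
  | const : Env fun _ => false
  | fold {e : ℤ → Bool} {g : ℤ} : Env e → e g = false → Env (foldAt g e)

/-- The upper centres of a window. -/
def Half (X : ℤ → Bool) (b t : ℤ) (T : Set ℤ) : Prop :=
  (∀ c ∈ T, b ≤ c ∧ c ≤ t ∧ X c = true) ∧
  ∀ c ∈ T, ∀ x, c < x → x ≤ t → (∀ y ∈ T, c < y → x ≤ y) → b ≤ 2 * c - x ∧
    (x ∉ T → (x < t ∨ ∃ c₀ ∈ T, c₀ < 2 * c - x) → X x = X (2 * c - x)) ∧
    (x ∈ T → (∃ c₀ ∈ T, c₀ < 2 * c - x) → X (2 * c - x) = false)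

/-- Upper centres `T`, lower centres `-B`, and `false` in the middle. -/
def Str (X : ℤ → Bool) (b t : ℤ) (T B : Set ℤ) : Prop :=
  Half X b t T ∧ Half (fun x => X (-x)) (-t) (-b) B ∧ (∀ c ∈ T, ∀ β ∈ B, -β < c) ∧
    ∀ x, b ≤ x → x ≤ t → (∀ c ∈ T, x < c) → (∀ β ∈ B, -β < x) → X x = false

variable {X X' : ℤ → Bool} {b t : ℤ} {T B : Set ℤ}

theorem Half.shift (h : Half X b t T) (s : ℤ) {b' t' : ℤ} (hb : b' + s = b) (ht : t' + s = t)
    (hX : ∀ x, b' ≤ x → x ≤ t' → X' x = X (x + s)) : Half X' b' t' {x | x + s ∈ T} := by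
  refine ⟨fun c hc => ?_, fun c hc x a1 a2 a3 => ?_⟩
  · obtain ⟨a1, a2, a3⟩ := h.1 _ hc
    exact ⟨by omega, by omega, by rw [hX c (by omega) (by omega), a3]⟩
  obtain ⟨b1, b2, b3⟩ := h.2 _ hc (x + s) (by omega) (by omega) fun y c1 c2 => by
    have := a3 (y - s) (by simpa using c1) (by omega)
    omega
  have := (h.1 _ hc).1
  have e : 2 * (c + s) - (x + s) = 2 * c - x + s := by ring
  rw [e] at b1 b2 b3
  rw [hX x (by omega) a2, hX (2 * c - x) (by omega) (by omega)]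
  refine ⟨by omega, fun c1 c2 => b2 c1 ?_, fun c1 ⟨c₀, c2, c3⟩ => b3 c1 ⟨_, c2, by omega⟩⟩
  rcases c2 with c2 | ⟨c₀, c2, c3⟩
  · exact Or.inl (by omega)
  · exact Or.inr ⟨_, c2, by omega⟩

theorem Str.shift (h : Str X b t T B) (s : ℤ) {b' t' : ℤ} (hb : b' + s = b) (ht : t' + s = t)
    (hX : ∀ x, b' ≤ x → x ≤ t' → X' x = X (x + s)) :
    Str X' b' t' {x | x + s ∈ T} {x | x + -s ∈ B} := by
  obtain ⟨h1, h2, h3, h4⟩ := h
  refine ⟨h1.shift s hb ht hX, h2.shift (-s) (by omega) (by omega) fun x a1 a2 => ?_,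
    fun c a1 β a2 => ?_, fun x a1 a2 a3 a4 => ?_⟩
  · rw [hX (-x) (by omega) (by omega)]
    exact congrArg X (by ring)
  · have := h3 _ a1 _ a2
    omega
  · rw [hX x a1 a2]
    refine h4 _ (by omega) (by omega) (fun c c1 => ?_) fun β c1 => ?_
    · have := a3 (c - s) (by simpa using c1)
      omega
    · have := a4 (β + s) (by simpa using c1)
      omega

theorem Str.neg (h : Str X b t T B) : Str (fun x => X (-x)) (-t) (-b) B T := by
  obtain ⟨h1, h2, h3, h4⟩ := h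
  refine ⟨h2, by simpa using h1, fun c a1 β a2 => ?_, fun x a1 a2 a3 a4 => ?_⟩
  · have := h3 _ a2 _ a1
    omega
  · refine h4 _ (by omega) (by omega) (fun c c1 => ?_) fun β c1 => ?_
    · have := a4 c c1
      omega
    · have := a3 β c1
      omega

theorem Str.extend {g : ℤ} (h : Str X b g T B) (hg : X g = false) (h1 : b ≤ g) (h2 : g ≤ t)
    (h3 : b ≤ 2 * g - t) : Str (foldAt g X) b t (insert g T) B := by
  obtain ⟨a1, a2, a3, a4⟩ := h
  have lt : ∀ x, x < g → foldAt g X x = X x := fun x hx => if_pos hx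
  have hT : ∀ c ∈ T, c < g := fun c hc => (a1.1 c hc).2.1.lt_of_ne fun e => by
    have := (a1.1 c hc).2.2
    rw [e, hg] at this
    exact Bool.false_ne_true this
  have hB : ∀ β ∈ B, -β < g := fun β hβ => lt_of_le_of_ne (by linarith [(a2.1 β hβ).1]) fun e => by
    have : X (-β) = true := (a2.1 β hβ).2.2
    rw [e, hg] at this
    exact Bool.false_ne_true this
  refine ⟨⟨?_, ?_⟩, ⟨fun c hc => ?_, fun c hc x b1 b2 b3 => ?_⟩, ?_, fun x b1 b2 b3 b4 => ?_⟩
  · rintro c (rfl | hc)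
    · exact ⟨h1, h2, by simp [foldAt]⟩
    · have := hT c hc
      exact ⟨(a1.1 c hc).1, by omega, by rw [lt c this, (a1.1 c hc).2.2]⟩
  · rintro c (rfl | hc) x b1 b2 b3
    · refine ⟨by omega, fun _ _ => ?_, ?_⟩
      · rw [lt (2 * c - x) (by omega), foldAt, if_neg (by omega), if_neg (by omega)]
      · rintro (rfl | c1)
        · omega
        · have := hT x c1
          omega
    have c1 := hT c hc
    have c2 := b3 g (Or.inl rfl) c1
    obtain ⟨d1, d2, d3⟩ := a1.2 c hc x b1 c2 fun y e1 e2 => b3 y (Or.inr e1) e2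
    rw [lt (2 * c - x) (by omega)]
    have guard : (∃ c₀ ∈ insert g T, c₀ < 2 * c - x) → ∃ c₀ ∈ T, c₀ < 2 * c - x := by
      rintro ⟨c₀, rfl | e1, e2⟩
      · omega
      · exact ⟨c₀, e1, e2⟩
    refine ⟨d1, fun e1 _ => ?_, ?_⟩
    · have e2 : x < g := c2.lt_of_ne fun e => e1 (Or.inl e)
      rw [lt x e2]
      exact d2 (fun e => e1 (Or.inr e)) (Or.inl e2)
    · rintro (rfl | e1) e2
      · rw [← d2 (fun e => lt_irrefl _ (hT _ e)) (Or.inr (guard e2)), hg]
      · exact d3 e1 (guard e2)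
  · obtain ⟨b1, b2, b3⟩ := a2.1 c hc
    exact ⟨by omega, b2, (lt _ (hB c hc)).trans b3⟩
  · obtain ⟨d1, d2, d3⟩ := a2.2 c hc x b1 b2 b3
    have c1 := hB c hc
    have guard : (∃ c₀ ∈ B, c₀ < 2 * c - x) → -(2 * c - x) < g := by
      rintro ⟨c₀, e1, e2⟩
      have := hB c₀ e1
      omega
    refine ⟨by omega, fun e1 e2 => ?_, fun e1 e2 => (lt _ (guard e2)).trans (d3 e1 e2)⟩
    have e3 : -(2 * c - x) < g := by
      refine e2.elim (fun e2 => ?_) guard
      have := (a2.2 c hc (x + 1) (by omega) (by omega) fun y f1 f2 =>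
        (b3 y f1 f2).lt_of_ne fun e => e1 (e ▸ f1)).1
      omega
    exact (lt _ (by omega)).trans ((d2 e1 e2).trans (lt _ e3).symm)
  · rintro c (rfl | hc) β hβ
    · exact hB β hβ
    · exact a3 c hc β hβ
  · have := b3 g (Or.inl rfl)
    rw [lt x this]
    exact a4 x b1 this.le (fun c hc => b3 c (Or.inr hc)) b4

theorem Env.str {e : ℤ → Bool} (h : Env e) : ∀ b t, ∃ T B, Str e b t T B := by
  induction h with
  | const => exact fun b t => ⟨∅, ∅, by simp [Str, Half]⟩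
  | @fold e g _ hg ih =>
    have key : ∀ b t, b ≤ 2 * g - t → ∃ T B, Str (foldAt g e) b t T B := by
      intro b t h
      rcases lt_or_ge t g with h1 | h1
      · obtain ⟨T, B, h2⟩ := ih b t
        exact ⟨_, _, h2.shift 0 (add_zero _) (add_zero _) fun x _ _ => by
          rw [add_zero, foldAt, if_pos (by omega)]⟩
      · obtain ⟨T, B, h2⟩ := ih b g
        exact ⟨_, _, h2.extend hg (by omega) h1 h⟩
    intro b t
    rcases le_or_gt b (2 * g - t) with h | h
    · exact key b t h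
    obtain ⟨T, B, h2⟩ := key (2 * g - t) (2 * g - b) (by omega)
    refine ⟨_, _, h2.neg.shift (-(2 * g)) (by omega) (by omega) fun x _ _ => ?_⟩
    have e1 : -(x + -(2 * g)) = 2 * g - x := by ring
    have e2 : 2 * g - (2 * g - x) = x := by ring
    simp only [e1, foldAt, e2]
    split_ifs <;> first | rfl | omega

theorem Half.eq_of (h : Half X b t T) (h' : Half X' b t T) {x : ℤ} (h1 : x < t)
    (h2 : ∃ c ∈ T, c ≤ x) (h3 : ∀ c ∈ T, c < x → b ≤ 2 * c - x → X (2 * c - x) = X' (2 * c - x)) :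
    X x = X' x := by
  by_cases hx : x ∈ T
  · rw [(h.1 x hx).2.2, (h'.1 x hx).2.2]
  obtain ⟨c₀, a1, a2⟩ := h2
  have a3 : c₀ < x := a2.lt_of_ne fun e => hx (e ▸ a1)
  obtain ⟨c, b1, b2, ⟨b3, -⟩ | b3⟩ := exists_prev T a2
  · obtain ⟨c1, c2, -⟩ := h.2 c b3 x b1 h1.le b2
    rw [c2 hx (Or.inl h1), (h'.2 c b3 x b1 h1.le b2).2.1 hx (Or.inl h1), h3 c b3 b1 c1]
  · have := b2 c₀ a1 (by omega)
    omega

theorem Str.eq_of (h : Str X b t T B) (h' : Str X' b t T B) (hb : X b = X' b) (ht : X t = X' t)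
    (x : ℤ) (h1 : b ≤ x) (h2 : x ≤ t) : X x = X' x := by
  obtain ⟨m, m1, m2⟩ : ∃ m, (∀ c ∈ T, m < c) ∧ ∀ β ∈ B, -β ≤ m := by
    by_cases hT : ∃ c, c ∈ T
    · obtain ⟨c, c1, c2⟩ := Int.exists_least_of_bdd ⟨b, fun z hz => (h.1.1 z hz).1⟩ hT
      refine ⟨c - 1, fun z hz => ?_, fun β hβ => ?_⟩
      · have := c2 z hz
        omega
      · have := h.2.2.1 c c1 β hβ
        omega
    · refine ⟨t, fun c hc => absurd ⟨c, hc⟩ hT, fun β hβ => ?_⟩
      have := (h.2.1.1 β hβ).1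
      omega
  induction hk : (2 * x - 2 * m - 1).natAbs using Nat.strong_induction_on generalizing x with
  | _ k ih =>
  rcases h1.eq_or_lt with rfl | h1'
  · exact hb
  rcases h2.eq_or_lt with rfl | h2'
  · exact ht
  by_cases c1 : ∃ c ∈ T, c ≤ x
  · refine h.1.eq_of h'.1 h2' c1 fun c d1 d2 d3 => ?_
    have := m1 c d1
    exact ih _ (by omega) _ d3 (by omega) rfl
  by_cases c2 : ∃ β ∈ B, β ≤ -x
  · have := h.2.1.eq_of h'.2.1 (by omega) c2 fun c d1 d2 d3 => by
      have := m2 c d1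
      exact ih _ (by omega) _ (by omega) (by omega) rfl
    simpa using this
  push Not at c1 c2
  have c3 : ∀ β ∈ B, -β < x := fun β hβ => by
    have := c2 β hβ
    omega
  rw [h.2.2.2 x h1 h2 c1 c3, h'.2.2.2 x h1 h2 c1 c3]

theorem Half.card_le {ε : ℝ} (hε : 0 < ε) : ∃ C : ℝ, ∀ X b t T, b ≤ t → Half X b t T →
    (((Icc b t).filter (· ∈ T)).card : ℝ) ≤ ε * (t - b) + C := by
  obtain ⟨C, hC⟩ := dens hε
  refine ⟨max C 0 + 2, fun X b t T hbt h => ?_⟩
  have p1 : (0 : ℝ) ≤ ε * (t - b) := mul_nonneg hε.le (by exact_mod_cast sub_nonneg.2 hbt)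
  have p2 := le_max_left C 0
  have p3 := le_max_right C 0
  by_cases hT : ∃ c ∈ T, c < t
  · obtain ⟨c₀, ⟨c1, c2⟩, c3⟩ := Int.exists_least_of_bdd ⟨b, fun z hz => (h.1 z hz.1).1⟩ hT
    have q1 := hC X T (c₀ + 1) t c2 fun c hc x a1 a2 a3 a4 => by
      obtain ⟨-, b2, b3⟩ := h.2 c hc x a1 a2 a3
      exact ⟨fun d => b2 d (Or.inr ⟨c₀, c1, by omega⟩),
        fun d => ⟨(h.1 x d).2.2, b3 d ⟨c₀, c1, by omega⟩⟩⟩
    have q2 : (Icc b t).filter (· ∈ T) ⊆
        insert c₀ (insert t ((Ico (c₀ + 1) t).filter (· ∈ T))) := fun x hx => by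
      simp only [mem_filter, mem_Icc, mem_insert, mem_Ico] at hx ⊢
      by_cases d : x < t
      · have := c3 x ⟨hx.2, d⟩
        simp only [hx.2, and_true]
        omega
      · omega
    have q3 := (card_le_card q2).trans ((card_insert_le _ _).trans
      (Nat.succ_le_succ (card_insert_le _ _)))
    have q4 : (((Icc b t).filter (· ∈ T)).card : ℝ) ≤
        ((Ico (c₀ + 1) t).filter (· ∈ T)).card + 2 := by exact_mod_cast q3
    have q5 : (b : ℝ) ≤ c₀ := by exact_mod_cast (h.1 c₀ c1).1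
    unfold cnt at q1
    push_cast at q1
    nlinarith
  · have q2 : (Icc b t).filter (· ∈ T) ⊆ {t} := fun x hx => by
      simp only [mem_filter, mem_Icc, mem_singleton] at hx ⊢
      by_contra d
      exact hT ⟨x, hx.2, by omega⟩
    have q4 : (((Icc b t).filter (· ∈ T)).card : ℝ) ≤ 1 := by exact_mod_cast card_le_card q2
    linarith

theorem card_small (I : Finset ℤ) {θ k : ℝ} (h0 : 0 < θ) (h1 : θ ≤ 1) :
    ((I.powerset.filter fun S => (S.card : ℝ) ≤ k).card : ℝ) ≤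
      Real.exp (θ * I.card - k * Real.log θ) := by
  have a1 : ((I.powerset.filter fun S => (S.card : ℝ) ≤ k).card : ℝ) * Real.exp (k * Real.log θ) ≤
      ∑ S ∈ I.powerset, θ ^ S.card := by
    rw [← nsmul_eq_mul]
    refine (card_nsmul_le_sum _ _ _ fun S hS => ?_).trans
      (sum_le_sum_of_subset_of_nonneg (filter_subset _ _) fun _ _ _ => by positivity)
    rw [← Real.exp_log (pow_pos h0 _), Real.log_pow]
    exact Real.exp_le_exp.2
      (mul_le_mul_of_nonpos_right (mem_filter.1 hS).2 (Real.log_nonpos h0.le h1))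
  have a2 : ∑ S ∈ I.powerset, θ ^ S.card ≤ Real.exp (θ * I.card) := by
    have := prod_one_add (s := I) (f := fun _ => θ)
    simp only [prod_const] at this
    rw [← this, mul_comm, Real.exp_nat_mul]
    exact pow_le_pow_left₀ (by positivity) (by linarith [Real.add_one_le_exp θ]) _
  rw [Real.exp_sub, le_div_iff₀ (Real.exp_pos _)]
  exact a1.trans a2

/-- The windows of length `n + 1`. -/
def Win (n : ℕ) : Set (Fin (n + 1) → Bool) :=
  {w | ∃ e b, Env e ∧ w = fun j : Fin (n + 1) => e (j + b)}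

theorem ncard_Win {ε : ℝ} (hε : 0 < ε) : ∃ C : ℝ, ∀ n : ℕ,
    ((Win n).ncard : ℝ) ≤ Real.exp (ε * n + C) := by
  obtain ⟨θ, θ0, θ1, θ2⟩ : ∃ θ : ℝ, 0 < θ ∧ θ < 1 ∧ 4 * θ ≤ ε :=
    ⟨min (1 / 2) (ε / 4), by positivity, by linarith [min_le_left (1 / 2) (ε / 4)],
      by linarith [min_le_right (1 / 2) (ε / 4)]⟩
  have l0 : 0 < -Real.log θ := neg_pos.2 (Real.log_neg θ0 θ1)
  obtain ⟨C, hC⟩ := Half.card_le (div_pos θ0 l0)
  refine ⟨2 * (θ - C * Real.log θ) + 4, fun n => ?_⟩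
  set k : ℝ := θ / -Real.log θ * n + C with hk
  have hw : ∀ w : Win n, ∃ X T B, Str X 0 n T B ∧ ∀ j : Fin (n + 1), w.1 j = X j := by
    rintro ⟨_, e, b, h, rfl⟩
    obtain ⟨T, B, h1⟩ := h.str b (n + b)
    exact ⟨_, _, _, h1.shift b (zero_add _) rfl fun _ _ _ => rfl, fun _ => rfl⟩
  choose X T B h1 h2 using hw
  have a1 : Fintype.card (Win n) ≤ (((Icc (0 : ℤ) n).powerset.filter fun S => (S.card : ℝ) ≤ k) ×ˢ
      ((Icc (-n : ℤ) (-0)).powerset.filter fun S => (S.card : ℝ) ≤ k) ×ˢ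
      (univ : Finset (Bool × Bool))).card := by
    refine card_le_card_of_injOn (fun w => ((Icc (0 : ℤ) n).filter (· ∈ T w),
      (Icc (-n : ℤ) (-0)).filter (· ∈ B w), X w 0, X w n)) (fun w _ => ?_) fun w _ w' _ h => ?_
    · simp only [coe_product, Set.mem_prod, mem_coe, mem_filter, mem_powerset, filter_subset,
        true_and, mem_univ, and_true]
      exact ⟨by simpa using hC _ _ _ _ (by omega) (h1 w).1,
        by simpa using hC _ _ _ _ (by omega) (h1 w).2.1⟩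
    · simp only [Prod.mk.injEq] at h
      obtain ⟨e1, e2, e3, e4⟩ := h
      have key : ∀ {Y Y' : ℤ → Bool} {b t : ℤ} {S S' : Set ℤ}, Half Y b t S → Half Y' b t S' →
          (Icc b t).filter (· ∈ S) = (Icc b t).filter (· ∈ S') → S ⊆ S' :=
        fun d1 _ d3 x hx => (mem_filter.1 (d3 ▸ mem_filter.2
          ⟨mem_Icc.2 ⟨(d1.1 x hx).1, (d1.1 x hx).2.1⟩, hx⟩)).2
      have f1 := (key (h1 w).1 (h1 w').1 e1).antisymm (key (h1 w').1 (h1 w).1 e1.symm)
      have f2 := (key (h1 w).2.1 (h1 w').2.1 e2).antisymm (key (h1 w').2.1 (h1 w).2.1 e2.symm)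
      refine Subtype.ext (funext fun j => ?_)
      rw [h2, h2]
      exact (h1 w).eq_of (f1 ▸ f2 ▸ h1 w') e3 e4 j (by omega) (by omega)
  have a2 := card_small (Icc (0 : ℤ) n) (k := k) θ0 θ1.le
  have a3 := card_small (Icc (-n : ℤ) (-0)) (k := k) θ0 θ1.le
  have a4 : ((Icc (0 : ℤ) n).card : ℝ) = n + 1 := by
    exact_mod_cast (by rw [Int.card_Icc]; omega : (Icc (0 : ℤ) n).card = n + 1)
  have a5 : ((Icc (-n : ℤ) (-0)).card : ℝ) = n + 1 := by
    exact_mod_cast (by rw [Int.card_Icc]; omega : (Icc (-n : ℤ) (-0)).card = n + 1)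
  rw [a4] at a2
  rw [a5] at a3
  rw [card_product, card_product, card_univ, Fintype.card_prod, Fintype.card_bool] at a1
  have a6 : k * Real.log θ = C * Real.log θ - θ * n := by
    have := l0.ne'
    rw [neg_ne_zero] at this
    rw [hk]
    field_simp
    ring
  rw [← Nat.card_coe_set_eq, Nat.card_eq_fintype_card]
  calc _ ≤ Real.exp (θ * (n + 1) - k * Real.log θ) *
        (Real.exp (θ * (n + 1) - k * Real.log θ) * Real.exp 4) := by
        refine (Nat.cast_le.2 a1).trans ?_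
        push_cast
        exact mul_le_mul a2 (mul_le_mul a3 (by linarith [Real.add_one_le_exp 4]) (by norm_num)
          (by positivity)) (by positivity) (by positivity)
    _ ≤ _ := by
        rw [← Real.exp_add, ← Real.exp_add, a6]
        exact Real.exp_le_exp.2 (by nlinarith [Nat.cast_nonneg (α := ℝ) n])

end Pool.Agent.P.MP_13a6c0_al
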