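import Pool.Agent.P.MP_13a6c0_al.ZLang
import Pool.Agent.P.MP_13a6c0_al.Defs

/-! The walker: every non-empty word moves it in some folded environment. -/

namespace Pool.Agent.P.MP_13a6c0_al

open scoped Classical

/-- Move to the other end of the cell. A state is a gate and the direction (`true` is up). -/
def hop (s : ℤ × Bool) : ℤ × Bool := if s.2 then (s.1 - 1, false) else (s.1 + 1, true)

/-- Cross the gate if the letter `u` contains its label. -/
def cross (e : ℤ → Bool) (u : Bool → Bool) (s : ℤ × Bool) : ℤ × Bool :=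
  if u (e s.1) then (s.1, !s.2) else s

/-- The trajectory. -/
def traj (e : ℤ → Bool) (u : ℕ → Bool → Bool) (s : ℤ × Bool) (t : ℕ) : ℤ × Bool :=
  Nat.rec s (fun t s => hop (cross e (u t) s)) t

theorem traj_succ (e : ℤ → Bool) (u : ℕ → Bool → Bool) (s : ℤ × Bool) (t : ℕ) :
    traj e u s (t + 1) = hop (cross e (u t) (traj e u s t)) := rfl

theorem hop_hop (s : ℤ × Bool) : hop (hop s) = s := by
  rcases s with ⟨i, _ | _⟩ <;> simp [hop]

theorem step_fst (e : ℤ → Bool) (u : Bool → Bool) (s : ℤ × Bool) :
    (hop (cross e u s)).1 = if (hop (cross e u s)).2 then s.1 + 1 else s.1 - 1 := by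
  rcases s with ⟨i, _ | _⟩ <;> cases h : u (e i) <;> simp [hop, cross, h]

theorem traj_bdd (e : ℤ → Bool) (u : ℕ → Bool → Bool) (t : ℕ) :
    -(t : ℤ) ≤ (traj e u (0, true) t).1 ∧ (traj e u (0, true) t).1 ≤ t := by
  induction t with
  | zero => exact ⟨le_rfl, le_rfl⟩
  | succ t ih =>
    rw [traj_succ, step_fst]
    split_ifs <;> omega

/-- Environments in which the walker crosses all gates labelled `true`. -/
def Inv (u : ℕ → Bool → Bool) (n : ℕ) (e : ℤ → Bool) : Prop :=
  Env e ∧ e (-(n + 1)) = true ∧ (∀ x < -(n + 1 : ℤ), e x = false) ∧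
    ∀ t < n, e (traj e u (0, true) t).1 = true → u t true = true

theorem fold_step {u : ℕ → Bool → Bool} {n : ℕ} (hn : 0 < n)
    (hu : ∀ t < n, u t false = false → u t true = true) {e : ℤ → Bool} (h : Inv u n e)
    (hτ : (traj e u (0, true) n).1 ≤ 0) {k : ℤ} (hk : ∃ t ≤ n, k ≤ (traj e u (0, true) t).1) :
    ∃ e', Inv u n e' ∧ ∃ t ≤ n, k + 1 ≤ (traj e' u (0, true) t).1 := by
  obtain ⟨g, ⟨t₁, a1, a2⟩, a3⟩ := Int.exists_greatest_of_bdd
    (P := fun g => ∃ t ≤ n, (traj e u (0, true) t).1 = g)
    ⟨n, by rintro _ ⟨t, c1, rfl⟩; linarith [(traj_bdd e u t).2]⟩ ⟨_, 0, hn.le, rfl⟩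
  have top : ∀ t ≤ n, (traj e u (0, true) t).1 ≤ g := fun t ht => a3 _ ⟨t, ht, rfl⟩
  have g0 : 0 ≤ g := top 0 hn.le
  have bounce : ∀ t < n, (traj e u (0, true) t).1 = g → traj e u (0, true) t = (g, true) ∧
      traj e u (0, true) (t + 1) = (g - 1, false) ∧ e g = false ∧ u t true = true := by
    intro t ht hg
    have b1 : (traj e u (0, true) t).2 = true := by
      rcases t with _ | t
      · rfl
      have := top t (by omega)
      rw [traj_succ, step_fst] at hg
      by_contra b1
      rw [if_neg (by rwa [traj_succ] at b1)] at hg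
      omega
    have b2 : traj e u (0, true) t = (g, true) := Prod.ext hg b1
    have b3 : u t (e g) = false := by
      have := top (t + 1) ht
      rw [traj_succ, b2] at this
      by_contra b3
      simp [hop, cross, eq_true_of_ne_false b3] at this
    have b4 : e g = false := by
      by_contra b4
      rw [eq_true_of_ne_false b4, h.2.2.2 t ht (hg ▸ eq_true_of_ne_false b4)] at b3
      exact Bool.noConfusion b3
    exact ⟨b2, by simp [traj_succ, b2, hop, cross, b3], b4, hu t ht (b4 ▸ b3)⟩
  obtain ⟨t₀, c1, c2⟩ : ∃ t < n, (traj e u (0, true) t).1 = g := by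
    rcases a1.eq_or_lt with rfl | a1
    · exact ⟨0, hn, le_antisymm g0 (a2 ▸ hτ)⟩
    · exact ⟨t₁, a1, a2⟩
  have lt : ∀ x, x < g → foldAt g e x = e x := fun x hx => if_pos hx
  have gt : ∀ x, x < g → foldAt g e (2 * g - x) = e x := fun x hx => by
    rw [foldAt, if_neg (by omega), if_neg (by omega), sub_sub_cancel]
  have eq : foldAt g e g = true := by simp [foldAt]
  have lift : ∀ t ≤ n, traj (foldAt g e) u (0, true) t = traj e u (0, true) t ∨
      traj (foldAt g e) u (0, true) t =
        (2 * g - (traj e u (0, true) t).1, !(traj e u (0, true) t).2) := by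
    intro t
    induction t with
    | zero => exact fun _ => Or.inl rfl
    | succ t ih =>
      intro ht
      rcases (top t (by omega)).eq_or_lt with d | d
      · obtain ⟨d1, d2, -, d4⟩ := bounce t ht d
        rw [d2, traj_succ]
        rcases ih (by omega) with d5 | d5
        · right
          simp [d5, d1, hop, cross, eq, d4]
          ring
        · left
          simp [d5, d1, hop, cross, two_mul, eq, d4]
      rw [traj_succ, traj_succ]
      refine (ih (by omega)).imp (fun d5 => ?_) fun d5 => ?_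
      · rw [d5, cross, cross, lt _ d]
      · rw [d5, cross, cross, gt _ d]
        rcases traj e u (0, true) t with ⟨i, _ | _⟩ <;> cases u t (e i) <;> simp [hop] <;> ring
  obtain ⟨d1, -, d3, d4⟩ := bounce t₀ c1 c2
  refine ⟨foldAt g e, ⟨h.1.fold d3, (lt _ (by omega)).trans h.2.1,
    fun x hx => (lt _ (by omega)).trans (h.2.2.1 x hx), fun t ht h1 => ?_⟩, ?_⟩
  · rcases (top t ht.le).eq_or_lt with d | d
    · exact (bounce t ht d).2.2.2
    refine h.2.2.2 t ht ?_
    rcases lift t ht.le with d5 | d5 <;> rw [d5] at h1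
    · rwa [lt _ d] at h1
    · rwa [gt _ d] at h1
  obtain ⟨t, e1, e2⟩ := hk
  have e3 := top t e1
  by_contra e4
  push Not at e4
  have e5 : ∀ t ≤ n, (traj (foldAt g e) u (0, true) t).2 = true →
      (traj (foldAt g e) u (0, true) t).1 = g → t < n → False := by
    intro t _ f1 f2 f3
    have := e4 (t + 1) f3
    have f4 : u t true = true := by
      refine (bounce t f3 ?_).2.2.2
      rcases lift t f3.le with d5 | d5 <;> rw [d5] at f2
      · exact f2
      · simp only at f2
        omega
    rw [traj_succ, show traj (foldAt g e) u (0, true) t = (g, true) from Prod.ext f2 f1] at this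
    simp [hop, cross, eq, f4] at this
    omega
  rcases lift t₀ c1.le with d5 | d5
  · exact e5 t₀ c1.le (by rw [d5, d1]) (by rw [d5, d1]) c1
  · rcases t₀ with _ | t₀
    · simp [traj] at d5
    have := e4 t₀ (by omega)
    have f1 := step_fst (foldAt g e) (u t₀) (traj (foldAt g e) u (0, true) t₀)
    rw [← traj_succ, d5, d1] at f1
    simp at f1
    omega

theorem exists_env_moves {u : ℕ → Bool → Bool} {n : ℕ} (hn : 0 < n)
    (hu : ∀ t < n, u t false = false → u t true = true) :
    ∃ e, Inv u n e ∧ 0 < (traj e u (0, true) n).1 := by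
  by_contra h
  push Not at h
  have key : ∀ k : ℕ, ∃ e, Inv u n e ∧ ∃ t ≤ n, (k : ℤ) ≤ (traj e u (0, true) t).1 := by
    intro k
    induction k with
    | zero =>
      refine ⟨foldAt (-(n + 1)) fun _ => false, ⟨Env.const.fold rfl, by simp [foldAt],
        fun x hx => if_pos hx, fun t ht h1 => ?_⟩, 0, hn.le, le_rfl⟩
      have := (traj_bdd (foldAt (-(n + 1)) fun _ => false) u t).1
      rw [foldAt, if_neg (by omega), if_neg (by omega)] at h1
      exact Bool.noConfusion h1
    | succ k ih =>
      obtain ⟨e, h1, h2⟩ := ih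
      exact fold_step hn hu h1 (h e h1) h2
  obtain ⟨e, -, t, h1, h2⟩ := key (n + 1)
  have := (traj_bdd e u t).2
  omega

end Pool.Agent.P.MP_13a6c0_al
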